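import Pool.Agent.TH714.PF.Inv

set_option autoImplicit false
set_option linter.unusedSectionVars false

/-!
A finitely generated nontrivial normal subgroup has finite index as soon as there is a derivation
into the Malcev-Neumann series which is not inner.
-/

namespace Pool.Agent.TH714.PF

open Pool.Agent.H979R3

variable {G : Type*} [Group G] [LinearOrder G] [MulLeftMono G] [MulRightMono G]

/-- the group elements in the ring of series -/
noncomputable def em (g : G) : MN G := MN.single g 1

theorem em_one : em (1 : G) = 1 := rfl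

theorem em_mul (g h : G) : em (g * h) = em g * em h := by
  unfold em
  rw [MN.single_mul_single, mul_one]

theorem em_ne_one {g : G} (hg : g ≠ 1) : em g - 1 ≠ 0 := by
  intro h
  have h1 : (em g - 1).c g = (0 : MN G).c g := by rw [h]
  unfold em at h1
  rw [MN.sub_c, MN.single_same, MN.one_def, MN.single_ne _ _ _ hg, MN.zero_c, sub_zero] at h1
  exact one_ne_zero h1

theorem finiteIndex_of_der (N : Subgroup G) [N.Normal] (hfg : N.FG) (hN : N ≠ ⊥)
    (d : G → MN G) (hd : ∀ g h, d (g * h) = d g + em g * d h)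
    (hni : ¬ ∃ v, ∀ g, d g = (em g - 1) * v) : Finite (G ⧸ N) := by
  classical
  obtain ⟨S, hS⟩ := hfg
  set L := subN N with hL
  have hemL : ∀ n ∈ N, em n ∈ L := fun n hn => single_mem_subN hn 1
  let W : Submodule L (MN G) := Submodule.span L ((S.image d : Finset (MN G)) : Set (MN G))
  have hd1 : d 1 = 0 := by
    have h := hd 1 1
    rw [mul_one, em_one, one_mul] at h
    exact left_eq_add.1 h
  have hdinv : ∀ g, d g⁻¹ = - (em g⁻¹ * d g) := by
    intro g
    have h := hd g⁻¹ g
    rw [inv_mul_cancel, hd1] at h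
    exact eq_neg_of_add_eq_zero_left h.symm
  have hsm : ∀ (l : MN G) (hl : l ∈ L) (x : MN G), x ∈ W → l * x ∈ W := fun l hl x hx =>
    W.smul_mem ⟨l, hl⟩ hx
  have hdW : ∀ n ∈ N, d n ∈ W := by
    intro n hn
    rw [← hS] at hn
    induction hn using Subgroup.closure_induction with
    | mem x hx =>
      exact Submodule.subset_span (Finset.mem_coe.2 (Finset.mem_image_of_mem _ hx))
    | one => rw [hd1]; exact W.zero_mem
    | mul x y hx hy ihx ihy =>
      rw [hd]
      exact W.add_mem ihx (hsm _ (hemL x (hS ▸ hx)) _ ihy)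
    | inv x hx ih =>
      rw [hdinv]
      exact W.neg_mem (hsm _ (hemL _ (N.inv_mem (hS ▸ hx))) _ ih)
  let v : G → MN G := fun n => (em n - 1)⁻¹ * d n
  have hv : ∀ n, n ≠ 1 → d n = (em n - 1) * v n := by
    intro n hn
    change d n = (em n - 1) * ((em n - 1)⁻¹ * d n)
    rw [← mul_assoc, mul_inv_cancel₀ (em_ne_one hn), one_mul]
  have hvW : ∀ n ∈ N, v n ∈ W := by
    intro n hn
    refine hsm _ ?_ _ (hdW n hn)
    exact L.inv_mem (L.sub_mem (hemL n hn) L.one_mem)
  have hvconj : ∀ g n, n ≠ 1 → v (g * n * g⁻¹) = em g * v n - d g := by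
    intro g n hn
    have hm : g * n * g⁻¹ ≠ 1 := by
      intro h
      apply hn
      have : n = g⁻¹ * (g * n * g⁻¹) * g := by group
      rw [this, h]; group
    have h1 : em g * em n = em (g * n * g⁻¹) * em g := by
      rw [← em_mul, ← em_mul]
      congr 1
      group
    have h2 : d (g * n * g⁻¹) = (em (g * n * g⁻¹) - 1) * (em g * v n - d g) := by
      rw [hd (g * n) g⁻¹, hd g n, hdinv g, em_mul, hv n hn]
      have e1 : em g * em n * -(em g⁻¹ * d g) = -(em (g * n * g⁻¹) * d g) := by
        rw [mul_neg, ← mul_assoc, h1, mul_assoc (em _) (em g) (em g⁻¹), ← em_mul, mul_inv_cancel,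
          em_one, mul_one]
      rw [e1]
      have e2 : em g * ((em n - 1) * v n) = em (g * n * g⁻¹) * (em g * v n) - em g * v n := by
        rw [sub_mul, one_mul, mul_sub, ← mul_assoc, h1, mul_assoc]
      rw [e2]
      noncomm_ring
    change (em (g * n * g⁻¹) - 1)⁻¹ * d (g * n * g⁻¹) = _
    rw [h2, ← mul_assoc, inv_mul_cancel₀ (em_ne_one hm), one_mul]
  obtain ⟨n₀, hn₀N, hn₀⟩ : ∃ n ∈ N, n ≠ 1 := by
    by_contra hcon
    push Not at hcon
    exact hN ((Subgroup.eq_bot_iff_forall N).2 hcon)
  obtain ⟨n₁, hn₁N, hn₁, hne⟩ : ∃ n ∈ N, n ≠ 1 ∧ v n ≠ v n₀ := by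
    by_contra hcon
    push Not at hcon
    apply hni
    refine ⟨v n₀, fun g => ?_⟩
    have hm : (g : G) * n₀ * g⁻¹ ≠ 1 := by
      intro h
      apply hn₀
      have : (n₀ : G) = g⁻¹ * (g * n₀ * g⁻¹) * g := by group
      rw [this, h]; group
    have h1 := hcon _ (Subgroup.Normal.conj_mem inferInstance _ hn₀N g) hm
    rw [hvconj g n₀ hn₀] at h1
    rw [sub_mul, one_mul]
    nth_rewrite 2 [← h1]
    abel
  set w := v n₁ - v n₀ with hw
  have hw0 : w ≠ 0 := sub_ne_zero.2 hne
  have hgw : ∀ g, em g * w ∈ W := by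
    intro g
    have e1 : em g * w = v (g * n₁ * g⁻¹) - v (g * n₀ * g⁻¹) := by
      rw [hvconj g n₁ hn₁, hvconj g n₀ hn₀, hw, mul_sub]
      abel
    rw [e1]
    exact W.sub_mem (hvW _ (Subgroup.Normal.conj_mem inferInstance _ hn₁N g))
      (hvW _ (Subgroup.Normal.conj_mem inferInstance _ hn₀N g))
  have hWfin : Module.Finite L W := Module.Finite.span_finset L (S.image d)
  let f : G ⧸ N → W := fun q => ⟨em q.out * w, hgw _⟩
  have hli : LinearIndependent L f := by
    rw [linearIndependent_iff']
    intro s l hl q₀ hq₀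
    have h1 : ∑ q ∈ s, (l q : MN G) * em q.out = 0 := by
      have h2 := congrArg (fun x : W => (x : MN G)) hl
      simp only [Submodule.coe_sum, Submodule.coe_smul, Submodule.coe_zero, f] at h2
      have h3 : (∑ q ∈ s, (l q : MN G) * em q.out) * w = 0 := by
        rw [Finset.sum_mul, ← h2]
        refine Finset.sum_congr rfl fun q _ => ?_
        rw [mul_assoc]
        rfl
      exact (mul_eq_zero.1 h3).resolve_right hw0
    apply Subtype.ext
    ext y
    rw [ZeroMemClass.coe_zero, MN.zero_c]
    by_contra hy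
    have hyN : y ∈ N := (l q₀).2 y hy
    have h2 : (∑ q ∈ s, (l q : MN G) * em q.out).c (y * q₀.out) = 0 := by rw [h1]; rfl
    have hsum : ∀ (t : Finset (G ⧸ N)) (F : G ⧸ N → MN G) (x : G),
        (∑ q ∈ t, F q).c x = ∑ q ∈ t, (F q).c x := by
      intro t F x
      induction t using Finset.induction_on with
      | empty => simp
      | insert a t ha ih => rw [Finset.sum_insert ha, Finset.sum_insert ha, MN.add_c, ih]
    rw [hsum, Finset.sum_eq_single q₀] at h2
    · unfold em at h2
      rw [MN.mul_single_c, mul_one, mul_inv_cancel_right] at h2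
      exact hy h2
    · intro q _ hq
      unfold em
      rw [MN.mul_single_c, mul_one]
      by_contra h
      have h3 : y * q₀.out * q.out⁻¹ ∈ N := (l q).2 _ h
      have h4 : q₀.out * q.out⁻¹ ∈ N := by
        rw [mul_assoc] at h3
        exact (N.mul_mem_cancel_left hyN).1 h3
      have h5 : q.out⁻¹ * q₀.out ∈ N := (Subgroup.Normal.mem_comm_iff inferInstance).1 h4
      apply hq
      rw [← QuotientGroup.out_eq' q, ← QuotientGroup.out_eq' q₀]
      exact QuotientGroup.eq.2 h5
    · intro h
      exact absurd hq₀ h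
  exact hli.finite_of_isNoetherian

end Pool.Agent.TH714.PF
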