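import Pool.Agent.TH714.PF.Ore

set_option autoImplicit false
set_option linter.unusedSectionVars false

/-!
The division ring of fractions of the group ring inside the Malcev-Neumann series, and clearing of
denominators.
-/

namespace Pool.Agent.TH714.PF

open Pool.Agent.H979R3
open scoped Pointwise

section fin

variable {G : Type*} [Group G] [LinearOrder G]

theorem Fin'.zero : Fin' (0 : MN G) := by
  refine Set.finite_empty.subset fun x hx => ?_
  exact hx rfl

theorem Fin'.single (g : G) (r : ℚ) : Fin' (MN.single g r) := by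
  refine (Set.finite_singleton g).subset fun x hx => ?_
  by_contra h
  exact hx (MN.single_ne g x r h)

theorem Fin'.add {z w : MN G} (hz : Fin' z) (hw : Fin' w) : Fin' (z + w) := by
  refine (Set.Finite.union hz hw).subset fun x hx => ?_
  by_contra h
  rw [Set.mem_union, not_or, Function.notMem_support, Function.notMem_support] at h
  apply hx
  rw [MN.add_c, h.1, h.2, add_zero]

theorem Fin'.neg {z : MN G} (hz : Fin' z) : Fin' (-z) := by
  refine Set.Finite.subset hz fun x hx => ?_
  intro h
  apply hx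
  rw [MN.neg_c, h, neg_zero]

theorem Fin'.sub {z w : MN G} (hz : Fin' z) (hw : Fin' w) : Fin' (z - w) := by
  refine (Set.Finite.union hz hw).subset fun x hx => ?_
  by_contra h
  rw [Set.mem_union, not_or, Function.notMem_support, Function.notMem_support] at h
  apply hx
  rw [MN.sub_c, h.1, h.2, sub_zero]

end fin

variable {G : Type*} [Group G] [LinearOrder G] [MulLeftMono G] [MulRightMono G]

theorem Fin'.one : Fin' (1 : MN G) := Fin'.single 1 1

theorem Fin'.mul {z w : MN G} (hz : Fin' z) (hw : Fin' w) : Fin' (z * w) :=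
  (Set.Finite.mul hz hw).subset (MN.supp_mul z w)

variable [Group.IsNilpotent G]

/-- fractions -/
def IsFrac (z : MN G) : Prop := ∃ s r : MN G, Fin' s ∧ Fin' r ∧ s ≠ 0 ∧ s * z = r

variable (G) in
/-- the division ring of fractions of the rational group ring -/
noncomputable def Frac : Subfield (MN G) where
  carrier := {z | IsFrac z}
  mul_mem' := by
    rintro z z' ⟨s, r, hs, hr, hs0, h⟩ ⟨s', r', hs', hr', hs0', h'⟩
    obtain ⟨c, d, hc, hd, hc0, hcd⟩ := ore r s' hr hs' hs0'
    refine ⟨c * s, d * r', hc.mul hs, hd.mul hr', mul_ne_zero hc0 hs0, ?_⟩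
    calc c * s * (z * z') = c * (s * z) * z' := by simp only [mul_assoc]
      _ = c * r * z' := by rw [h]
      _ = d * (s' * z') := by rw [hcd, mul_assoc]
      _ = d * r' := by rw [h']
  one_mem' := ⟨1, 1, Fin'.one, Fin'.one, one_ne_zero, one_mul 1⟩
  add_mem' := by
    rintro z z' ⟨s, r, hs, hr, hs0, h⟩ ⟨s', r', hs', hr', hs0', h'⟩
    obtain ⟨c, d, hc, hd, hc0, hcd⟩ := ore s s' hs hs' hs0'
    refine ⟨c * s, c * r + d * r', hc.mul hs, (hc.mul hr).add (hd.mul hr'),
      mul_ne_zero hc0 hs0, ?_⟩
    calc c * s * (z + z') = c * (s * z) + (c * s) * z' := by rw [mul_add, mul_assoc]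
      _ = c * r + d * (s' * z') := by rw [h, hcd, mul_assoc]
      _ = c * r + d * r' := by rw [h']
  zero_mem' := ⟨1, 0, Fin'.one, Fin'.zero, one_ne_zero, mul_zero 1⟩
  neg_mem' := by
    rintro z ⟨s, r, hs, hr, hs0, h⟩
    exact ⟨s, -r, hs, hr.neg, hs0, by rw [mul_neg, h]⟩
  inv_mem' := by
    rintro z ⟨s, r, hs, hr, hs0, h⟩
    by_cases hz : z = 0
    · rw [hz, inv_zero]
      exact ⟨1, 0, Fin'.one, Fin'.zero, one_ne_zero, mul_zero 1⟩
    · refine ⟨r, s, hr, hs, ?_, ?_⟩
      · rw [← h]
        exact mul_ne_zero hs0 hz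
      · rw [← h, mul_assoc, mul_inv_cancel₀ hz, mul_one]

theorem mem_Frac {z : MN G} : z ∈ Frac G ↔ IsFrac z := Iff.rfl

theorem Fin'.mem_Frac {z : MN G} (hz : Fin' z) : z ∈ Frac G :=
  ⟨1, z, Fin'.one, hz, one_ne_zero, one_mul z⟩

/-! ### relations -/

variable {P : Type*} [Group P]

/-- the relations of the universal derivation, and the element `b` -/
def gens (π : P →* G) (b : P) : Set (P →₀ MN G) :=
  {u | (∃ g h : P, u = Finsupp.single (g * h) 1 - Finsupp.single g 1 -
    Finsupp.single h (MN.single (π g) 1)) ∨ u = Finsupp.single b 1}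

/-- the span over the finitely supported series -/
noncomputable def spanR (π : P →* G) (b : P) : AddSubgroup (P →₀ MN G) :=
  AddSubgroup.closure {u | ∃ r : MN G, Fin' r ∧ ∃ w ∈ gens π b, u = r • w}

theorem spanR_smul (π : P →* G) (b : P) {r : MN G} (hr : Fin' r) {u : P →₀ MN G}
    (hu : u ∈ spanR π b) : r • u ∈ spanR π b := by
  unfold spanR at hu ⊢
  induction hu using AddSubgroup.closure_induction with
  | mem x hx =>
    obtain ⟨s, hs, w, hw, rfl⟩ := hx
    rw [smul_smul]
    exact AddSubgroup.subset_closure ⟨r * s, hr.mul hs, w, hw, rfl⟩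
  | zero => rw [smul_zero]; exact AddSubgroup.zero_mem _
  | add x y _ _ hx hy => rw [smul_add]; exact AddSubgroup.add_mem _ hx hy
  | neg x _ hx => rw [smul_neg]; exact AddSubgroup.neg_mem _ hx

theorem clear_denominators (π : P →* G) (b : P) {u : P →₀ MN G}
    (hu : u ∈ Submodule.span (Frac G) (gens π b)) :
    ∃ s : MN G, Fin' s ∧ s ≠ 0 ∧ s • u ∈ spanR π b := by
  induction hu using Submodule.span_induction with
  | mem x hx => exact ⟨1, Fin'.one, one_ne_zero, AddSubgroup.subset_closure ⟨1, Fin'.one, x, hx, rfl⟩⟩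
  | zero => exact ⟨1, Fin'.one, one_ne_zero, by rw [smul_zero]; exact AddSubgroup.zero_mem _⟩
  | add x y _ _ hx hy =>
    obtain ⟨s, hs, hs0, hsx⟩ := hx
    obtain ⟨t, ht, ht0, hty⟩ := hy
    obtain ⟨c, d, hc, hd, hc0, hcd⟩ := ore s t hs ht ht0
    refine ⟨c * s, hc.mul hs, mul_ne_zero hc0 hs0, ?_⟩
    rw [smul_add]
    refine AddSubgroup.add_mem _ ?_ ?_
    · rw [← smul_smul]
      exact spanR_smul π b hc hsx
    · rw [hcd, ← smul_smul]
      exact spanR_smul π b hd hty
  | smul e x _ hx =>
    obtain ⟨s, hs, hs0, hsx⟩ := hx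
    obtain ⟨e, he⟩ := e
    obtain ⟨t, r, ht, hr, ht0, hte⟩ := he
    obtain ⟨c, d, hc, hd, hc0, hcd⟩ := ore r s hr hs hs0
    refine ⟨c * t, hc.mul ht, mul_ne_zero hc0 ht0, ?_⟩
    have : (c * t) • ((⟨e, ⟨t, r, ht, hr, ht0, hte⟩⟩ : Frac G) • x) = d • s • x := by
      change (c * t) • (e • x) = _
      rw [smul_smul, smul_smul, mul_assoc, hte, hcd]
    rw [this]
    exact spanR_smul π b hd hsx

/-- the pairing of a series with a function -/
noncomputable def pair (z : MN G) (f : G → ℝ) : ℝ := ∑ᶠ q, (z.c q : ℝ) * f q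

theorem pair_fin {z : MN G} (hz : Fin' z) (f : G → ℝ) :
    (Function.support fun q => (z.c q : ℝ) * f q).Finite := by
  refine Set.Finite.subset hz fun x hx => ?_
  intro h
  apply hx
  simp only
  rw [h, Rat.cast_zero, zero_mul]

theorem pair_zero (f : G → ℝ) : pair (0 : MN G) f = 0 := by
  unfold pair
  simp

theorem pair_add {z w : MN G} (hz : Fin' z) (hw : Fin' w) (f : G → ℝ) :
    pair (z + w) f = pair z f + pair w f := by
  unfold pair
  rw [← finsum_add_distrib (pair_fin hz f) (pair_fin hw f)]
  refine finsum_congr fun q => ?_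
  rw [MN.add_c, Rat.cast_add, add_mul]

theorem pair_neg (z : MN G) (f : G → ℝ) : pair (-z) f = - pair z f := by
  unfold pair
  rw [← finsum_neg_distrib]
  refine finsum_congr fun q => ?_
  rw [MN.neg_c, Rat.cast_neg, neg_mul]

theorem pair_fadd {z : MN G} (hz : Fin' z) (f f' : G → ℝ) :
    pair z (fun x => f x + f' x) = pair z f + pair z f' := by
  unfold pair
  rw [← finsum_add_distrib (pair_fin hz f) (pair_fin hz f')]
  exact finsum_congr fun q => mul_add _ _ _

theorem pair_mul_single (z : MN G) (g : G) (f : G → ℝ) :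
    pair (z * MN.single g 1) f = pair z (fun x => f (x * g)) := by
  unfold pair
  rw [← finsum_comp_equiv (Equiv.mulRight g)]
  refine finsum_congr fun q => ?_
  rw [Equiv.coe_mulRight, MN.mul_single_c, mul_one, mul_inv_cancel_right]

/-- the functional defined by a derivation -/
noncomputable def theta (d : P → G → ℝ) (u : P →₀ MN G) : ℝ := ∑ᶠ g, pair (u g) (d g)

theorem theta_fin (d : P → G → ℝ) (u : P →₀ MN G) :
    (Function.support fun g => pair (u g) (d g)).Finite := by
  refine u.support.finite_toSet.subset fun x hx => ?_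
  rw [Finset.mem_coe, Finsupp.mem_support_iff]
  intro h
  apply hx
  simp only
  rw [h, pair_zero]

theorem theta_add (d : P → G → ℝ) {u v : P →₀ MN G} (hu : ∀ g, Fin' (u g))
    (hv : ∀ g, Fin' (v g)) : theta d (u + v) = theta d u + theta d v := by
  unfold theta
  rw [← finsum_add_distrib (theta_fin d u) (theta_fin d v)]
  refine finsum_congr fun g => ?_
  rw [Finsupp.add_apply, pair_add (hu g) (hv g)]

theorem theta_neg (d : P → G → ℝ) (u : P →₀ MN G) : theta d (-u) = - theta d u := by
  unfold theta
  rw [← finsum_neg_distrib]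
  refine finsum_congr fun g => ?_
  rw [Finsupp.neg_apply, pair_neg]

theorem theta_single (d : P → G → ℝ) (g : P) (r : MN G) :
    theta d (Finsupp.single g r) = pair r (d g) := by
  classical
  unfold theta
  rw [finsum_eq_single _ g]
  · rw [Finsupp.single_eq_same]
  · intro x hx
    rw [Finsupp.single_eq_of_ne hx, pair_zero]

theorem fin_single (g : P) {r : MN G} (hr : Fin' r) (x : P) :
    Fin' ((Finsupp.single g r : P →₀ MN G) x) := by
  classical
  rw [Finsupp.single_apply]
  split_ifs
  · exact hr
  · exact Fin'.zero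

theorem theta_spanR (π : P →* G) (b : P) (d : P → G → ℝ)
    (hd : ∀ g h x, d (g * h) x = d g x + d h (x * π g)) (hb : ∀ x, d b x = 0)
    {u : P →₀ MN G} (hu : u ∈ spanR π b) : (∀ g, Fin' (u g)) ∧ theta d u = 0 := by
  unfold spanR at hu
  induction hu using AddSubgroup.closure_induction with
  | mem x hx =>
    obtain ⟨r, hr, w, hw, rfl⟩ := hx
    rcases hw with ⟨g, h, rfl⟩ | rfl
    · have e1 : r • (Finsupp.single (g * h) 1 - Finsupp.single g 1 -
          Finsupp.single h (MN.single (π g) 1) : P →₀ MN G) =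
          Finsupp.single (g * h) r + (-Finsupp.single g r) +
          (-Finsupp.single h (r * MN.single (π g) 1)) := by
        rw [smul_sub, smul_sub, Finsupp.smul_single, Finsupp.smul_single, Finsupp.smul_single,
          smul_eq_mul, smul_eq_mul, mul_one]
        abel
      rw [e1]
      have f1 := fin_single (g * h) hr
      have f2 : ∀ x, Fin' ((-Finsupp.single g r : P →₀ MN G) x) := fun x => by
        rw [Finsupp.neg_apply]; exact (fin_single g hr x).neg
      have f3 : ∀ x, Fin' ((-Finsupp.single h (r * MN.single (π g) 1) : P →₀ MN G) x) := fun x => by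
        rw [Finsupp.neg_apply]
        exact (fin_single h (hr.mul (Fin'.single _ _)) x).neg
      have f12 : ∀ x, Fin' ((Finsupp.single (g * h) r + (-Finsupp.single g r) : P →₀ MN G) x) :=
        fun x => by rw [Finsupp.add_apply]; exact (f1 x).add (f2 x)
      refine ⟨fun x => by rw [Finsupp.add_apply]; exact (f12 x).add (f3 x), ?_⟩
      rw [theta_add d f12 f3, theta_add d f1 f2, theta_neg, theta_neg, theta_single, theta_single,
        theta_single, pair_mul_single]
      have e2 : pair r (d (g * h)) = pair r (d g) + pair r (fun x => d h (x * π g)) := by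
        rw [← pair_fadd hr]
        congr 1
        funext x
        exact hd g h x
      rw [e2]
      ring
    · rw [Finsupp.smul_single, smul_eq_mul, mul_one]
      refine ⟨fin_single b hr, ?_⟩
      rw [theta_single]
      unfold pair
      refine finsum_eq_zero_of_forall_eq_zero fun x => ?_
      rw [hb x, mul_zero]
  | zero =>
    refine ⟨fun g => Fin'.zero, ?_⟩
    unfold theta
    refine finsum_eq_zero_of_forall_eq_zero fun x => ?_
    rw [Finsupp.zero_apply, pair_zero]
  | add x y _ _ hx hy =>
    refine ⟨fun g => by rw [Finsupp.add_apply]; exact (hx.1 g).add (hy.1 g), ?_⟩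
    rw [theta_add d hx.1 hy.1, hx.2, hy.2, add_zero]
  | neg x _ hx =>
    refine ⟨fun g => by rw [Finsupp.neg_apply]; exact (hx.1 g).neg, ?_⟩
    rw [theta_neg, hx.2, neg_zero]

/-- If every finitely supported series is detected by a derivation vanishing at `b`, then `a` is
independent of `b` over the division ring of fractions. -/
theorem not_mem_span (π : P →* G) (a b : P)
    (hder : ∀ c : MN G, Fin' c → c ≠ 0 → ∃ d : P → G → ℝ,
      (∀ g h x, d (g * h) x = d g x + d h (x * π g)) ∧ (∀ x, d b x = 0) ∧ pair c (d a) ≠ 0) :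
    (Finsupp.single a 1 : P →₀ MN G) ∉ Submodule.span (Frac G) (gens π b) := by
  intro h
  obtain ⟨s, hs, hs0, hsu⟩ := clear_denominators π b h
  obtain ⟨d, hd, hb, hne⟩ := hder s hs hs0
  apply hne
  have h1 := (theta_spanR π b d hd hb hsu).2
  rwa [Finsupp.smul_single, smul_eq_mul, mul_one, theta_single] at h1

end Pool.Agent.TH714.PF
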