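import Pool.Agent.TH714.PF.Push
import Pool.Agent.TH714.PF.Frac
import Pool.Agent.TH714.PF.Dim

set_option autoImplicit false
set_option linter.unusedSectionVars false

/-!
The division ring of series all of whose late push-forwards are fractions, and derivations into it.
-/

namespace Pool.Agent.TH714.PF

open Pool.Agent.H979R3 Filter

variable {G : Type} [Group G] [LinearOrder G] [MulLeftMono G] [MulRightMono G]
  {Q : ℕ → Type} [∀ n, Group (Q n)] [∀ n, LinearOrder (Q n)] [∀ n, MulLeftMono (Q n)]
  [∀ n, MulRightMono (Q n)] [∀ n, Group.IsNilpotent (Q n)]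

/-- late push-forwards exist and are fractions -/
def Late (π : ∀ n, G →* Q n) (z : MN G) : Prop :=
  ∀ᶠ n in atTop, ∃ w ∈ Frac (Q n), IsPush (π n) z w

/-- the division ring of series all of whose late push-forwards are fractions -/
noncomputable def DD (π : ∀ n, G →* Q n) (hmono : ∀ n, Monotone (π n))
    (hsep : ∀ g : G, 1 < g → ∀ᶠ n in atTop, 1 < π n g) : Subfield (MN G) where
  carrier := {z | Late π z}
  mul_mem' := by
    intro a b ha hb
    filter_upwards [ha, hb] with n h1 h2
    obtain ⟨w, hw, hp⟩ := h1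
    obtain ⟨w', hw', hp'⟩ := h2
    exact ⟨w * w', (Frac (Q n)).mul_mem hw hw', hp.mul hp'⟩
  one_mem' := Eventually.of_forall fun n => ⟨1, (Frac (Q n)).one_mem, IsPush.one _⟩
  add_mem' := by
    intro a b ha hb
    filter_upwards [ha, hb] with n h1 h2
    obtain ⟨w, hw, hp⟩ := h1
    obtain ⟨w', hw', hp'⟩ := h2
    exact ⟨w + w', (Frac (Q n)).add_mem hw hw', hp.add hp'⟩
  zero_mem' := Eventually.of_forall fun n => ⟨0, (Frac (Q n)).zero_mem, IsPush.zero _⟩
  neg_mem' := by
    intro a ha
    filter_upwards [ha] with n h1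
    obtain ⟨w, hw, hp⟩ := h1
    exact ⟨-w, (Frac (Q n)).neg_mem hw, hp.neg⟩
  inv_mem' := by
    intro z hz
    by_cases h0 : z = 0
    · rw [h0, inv_zero]
      exact Eventually.of_forall fun n => ⟨0, (Frac (Q n)).zero_mem, IsPush.zero _⟩
    · -- the support of `z` beyond its leading term is eventually pushed beyond the leading term
      have hlate : ∀ᶠ n in atTop, ∀ g x, z.c g ≠ 0 → (∀ x, x < g → z.c x = 0) →
          z.c (g * x) ≠ 0 → 1 < x → 1 < π n x := by
        obtain ⟨g₀, hg₀, hlt₀⟩ := MN.ex_lead z h0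
        by_cases hne : {x | z.c (g₀ * x) ≠ 0 ∧ 1 < x}.Nonempty
        · -- least such element
          have hwf : {x | z.c (g₀ * x) ≠ 0 ∧ 1 < x}.IsWF := by
            have h1 : (Function.support (MN.single g₀⁻¹ 1 * z).c).IsWF :=
              (MN.single g₀⁻¹ 1 * z).pwo.isWF
            refine h1.mono fun x hx => ?_
            rw [Function.mem_support, MN.single_mul_c, inv_inv, one_mul]
            exact hx.1
          set m := hwf.min hne with hm
          have hmm : z.c (g₀ * m) ≠ 0 ∧ 1 < m := hwf.min_mem hne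
          filter_upwards [hsep m hmm.2] with n hn
          intro g x hg hlt hx hx1
          have hgg : g = g₀ := by
            rcases lt_trichotomy g g₀ with h | h | h
            · exact absurd (hlt₀ g h) hg
            · exact h
            · exact absurd (hlt g₀ h) hg₀
          rw [hgg] at hx
          have h2 : m ≤ x := not_lt.1 (hwf.not_lt_min hne (show x ∈ _ from ⟨hx, hx1⟩))
          exact lt_of_lt_of_le hn (hmono n h2)
        · refine Eventually.of_forall fun n g x hg hlt hx hx1 => ?_
          exfalso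
          apply hne
          have hgg : g = g₀ := by
            rcases lt_trichotomy g g₀ with h | h | h
            · exact absurd (hlt₀ g h) hg
            · exact h
            · exact absurd (hlt g₀ h) hg₀
          rw [hgg] at hx
          exact ⟨x, hx, hx1⟩
      filter_upwards [hz, hlate] with n h1 h2
      obtain ⟨w, hw, hp⟩ := h1
      obtain ⟨w', hp'⟩ := hp.inv h0 h2
      have h3 := hp.mul hp'
      rw [mul_inv_cancel₀ h0] at h3
      have h4 := h3.unique (IsPush.one _)
      have h5 : w' = w⁻¹ := (inv_eq_of_mul_eq_one_right h4).symm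
      exact ⟨w', by rw [h5]; exact (Frac (Q n)).inv_mem hw, hp'⟩

variable {π : ∀ n, G →* Q n} {hmono : ∀ n, Monotone (π n)}
    {hsep : ∀ g : G, 1 < g → ∀ᶠ n in atTop, 1 < π n g}

theorem mem_DD {z : MN G} : z ∈ DD π hmono hsep ↔ Late π z := Iff.rfl

theorem em_mem_DD (g : G) : em g ∈ DD π hmono hsep :=
  Eventually.of_forall fun n => ⟨MN.single (π n g) 1, (Fin'.single _ _).mem_Frac,
    IsPush.single _ _ _⟩

/-- the relations over the division ring `DD` -/
def gensD (G : Type) [Group G] [LinearOrder G] [MulLeftMono G] [MulRightMono G] (b : G) :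
    Set (G →₀ MN G) :=
  {u | (∃ g h : G, u = Finsupp.single (g * h) 1 - Finsupp.single g 1 -
    Finsupp.single h (em g)) ∨ u = Finsupp.single b 1}

/-- Late push-forwards of elements of the span. -/
theorem push_span (b : G) {u : G →₀ MN G}
    (hu : u ∈ Submodule.span (DD π hmono hsep) (gensD G b)) :
    ∀ᶠ n in atTop, ∃ v ∈ Submodule.span (Frac (Q n)) (gens (π n) b),
      ∀ g, IsPush (π n) (u g) (v g) := by
  classical
  have hsing : ∀ (n : ℕ) (g x : G) {z : MN G} {w : MN (Q n)}, IsPush (π n) z w →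
      IsPush (π n) ((Finsupp.single g z : G →₀ MN G) x)
        ((Finsupp.single g w : G →₀ MN (Q n)) x) := by
    intro n g x z w h
    rw [Finsupp.single_apply, Finsupp.single_apply]
    split_ifs
    · exact h
    · exact IsPush.zero _
  induction hu using Submodule.span_induction with
  | mem x hx =>
    refine Eventually.of_forall fun n => ?_
    rcases hx with ⟨g, h, rfl⟩ | rfl
    · refine ⟨_, Submodule.subset_span (Or.inl ⟨g, h, rfl⟩), fun x => ?_⟩
      simp only [Finsupp.sub_apply]
      exact ((hsing n _ x (IsPush.one _)).sub (hsing n _ x (IsPush.one _))).sub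
        (hsing n _ x (IsPush.single _ _ _))
    · exact ⟨_, Submodule.subset_span (Or.inr rfl), fun x => hsing n _ x (IsPush.one _)⟩
  | zero =>
    refine Eventually.of_forall fun n => ⟨0, Submodule.zero_mem _, fun g => ?_⟩
    exact IsPush.zero _
  | add x y _ _ hx hy =>
    filter_upwards [hx, hy] with n h1 h2
    obtain ⟨v, hv, hp⟩ := h1
    obtain ⟨v', hv', hp'⟩ := h2
    exact ⟨v + v', Submodule.add_mem _ hv hv', fun g => (hp g).add (hp' g)⟩
  | smul e x _ hx =>
    filter_upwards [hx, e.2] with n h1 h2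
    obtain ⟨v, hv, hp⟩ := h1
    obtain ⟨w, hw, hpw⟩ := h2
    refine ⟨(⟨w, hw⟩ : Frac (Q n)) • v, Submodule.smul_mem _ _ hv, fun g => ?_⟩
    exact hpw.mul (hp g)

/-- **Existence of derivations.** -/
theorem exists_der (a b : G)
    (hder : ∀ n, ∀ c : MN (Q n), Fin' c → c ≠ 0 → ∃ d : G → Q n → ℝ,
      (∀ g h x, d (g * h) x = d g x + d h (x * π n g)) ∧ (∀ x, d b x = 0) ∧ pair c (d a) ≠ 0)
    (hmono : ∀ n, Monotone (π n))
    (hsep : ∀ g : G, 1 < g → ∀ᶠ n in atTop, 1 < π n g) :
    ∃ d : G → MN G, (∀ g h, d (g * h) = d g + em g * d h) ∧ d b = 0 ∧ d a ≠ 0 := by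
  classical
  set D := DD π hmono hsep with hD
  set S : Submodule D (G →₀ MN G) := Submodule.span D (gensD G b) with hS
  have hnot : (Finsupp.single a 1 : G →₀ MN G) ∉ S := by
    intro h
    obtain ⟨n, v, hv, hp⟩ := (push_span b h).exists
    apply not_mem_span (π n) a b (hder n)
    convert hv
    ext1 g
    have h1 : IsPush (π n) ((Finsupp.single a 1 : G →₀ MN G) g)
        ((Finsupp.single a 1 : G →₀ MN (Q n)) g) := by
      rw [Finsupp.single_apply, Finsupp.single_apply]
      split_ifs
      · exact IsPush.one _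
      · exact IsPush.zero _
    exact h1.unique (hp g)
  -- a functional
  obtain ⟨f, hf1, hf2⟩ : ∃ f : (G →₀ MN G) →ₗ[D] D, f (Finsupp.single a 1) ≠ 0 ∧
      ∀ s ∈ S, f s = 0 := by
    obtain ⟨f, hf, hle⟩ := S.exists_le_ker_of_notMem hnot
    exact ⟨f, hf, fun s hs => LinearMap.mem_ker.1 (hle hs)⟩
  refine ⟨fun g => (f (Finsupp.single g 1) : MN G), fun g h => ?_, ?_, ?_⟩
  · have h1 := hf2 _ (Submodule.subset_span (Or.inl ⟨g, h, rfl⟩))
    rw [map_sub, map_sub] at h1
    have h2 : (Finsupp.single h (em g) : G →₀ MN G) =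
        (⟨em g, em_mem_DD g⟩ : D) • Finsupp.single h 1 := by
      rw [Finsupp.smul_single]
      congr 1
      change em g = em g * 1
      rw [mul_one]
    rw [h2, map_smul, sub_sub, sub_eq_zero] at h1
    exact congrArg Subtype.val h1
  · have h1 := hf2 _ (Submodule.subset_span (Or.inr rfl))
    exact congrArg Subtype.val h1
  · intro h
    exact hf1 (Subtype.ext h)

/-- **Abstract form of the theorem.** -/
theorem finite_quotient (a b : G) (hb : b ≠ 1)
    (hder : ∀ n, ∀ c : MN (Q n), Fin' c → c ≠ 0 → ∃ d : G → Q n → ℝ,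
      (∀ g h x, d (g * h) x = d g x + d h (x * π n g)) ∧ (∀ x, d b x = 0) ∧ pair c (d a) ≠ 0)
    (hmono : ∀ n, Monotone (π n))
    (hsep : ∀ g : G, 1 < g → ∀ᶠ n in atTop, 1 < π n g)
    (N : Subgroup G) [N.Normal] (hfg : N.FG) (hN : N ≠ ⊥) : Finite (G ⧸ N) := by
  obtain ⟨d, hd, hdb, hda⟩ := exists_der a b hder hmono hsep
  refine finiteIndex_of_der N hfg hN d hd ?_
  rintro ⟨v, hv⟩
  have h1 := hv b
  rw [hdb] at h1
  have h2 : v = 0 := (mul_eq_zero.1 h1.symm).resolve_left (em_ne_one hb)
  apply hda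
  rw [hv a, h2, mul_zero]

end Pool.Agent.TH714.PF
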