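import Pool.Agent.TH714.PF.Ser
import Pool.Agent.TH714.PF.Lim

set_option autoImplicit false
set_option linter.unusedSectionVars false

/-!
Finitely generated normal subgroups of parafree groups.
-/

namespace Pool.Agent.TH714.PF

open Pool.Agent.H32CE PowerSeries Pool.Agent.H979R3 Filter

variable {α P : Type} [Group P]

/-- **The Magnus embedding of a parafree group.** -/
theorem exists_psi (φ : FreeGroup α →* P)
    (hsurj : ∀ (n : ℕ) (g : P), ∃ w, (φ w)⁻¹ * g ∈ lcs P n)
    (hinj : ∀ (n : ℕ) (w : FreeGroup α), φ w ∈ lcs P n → w ∈ lcs (FreeGroup α) n)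
    (hres : ∀ g : P, (∀ n, g ∈ lcs P n) → g = 1) :
    ∃ ψ : P →* PS (T α), (∀ g, coeff 0 (ψ g) = 1) ∧ Function.Injective ψ := by
  choose w hw using hsurj
  have key : ∀ (n : ℕ) (g : P) (v : FreeGroup α), (φ v)⁻¹ * g ∈ lcs P n → ∀ k ≤ n,
      cf k (w k g) = cf k v := by
    intro n g v hv k hk
    have h1 : φ ((w k g)⁻¹ * v) ∈ lcs P k := by
      have h2 := Subgroup.mul_mem _ (hw k g) (Subgroup.inv_mem _
        (Subgroup.lowerCentralSeries_antitone _ hk hv))
      have h3 : (φ (w k g))⁻¹ * g * ((φ v)⁻¹ * g)⁻¹ = φ ((w k g)⁻¹ * v) := by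
        rw [map_mul, map_inv]; group
      rwa [h3] at h2
    exact cf_congr k _ _ (hinj k _ h1) k le_rfl
  let ψ : P →* PS (T α) :=
    { toFun := fun g => PowerSeries.mk fun k => cf k (w k g)
      map_one' := by
        ext k : 1
        rw [PowerSeries.coeff_mk, key k 1 1 (by rw [map_one, inv_one, mul_one]; exact one_mem _) k
          le_rfl]
        unfold cf
        rw [TBAS.mag_one]
      map_mul' := fun g h => by
        ext k : 1
        have h1 : (φ (w k g * w k h))⁻¹ * (g * h) ∈ lcs P k := by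
          have h2 := Subgroup.mul_mem _ (hw k h)
            (Subgroup.Normal.conj_mem inferInstance _ (hw k g) h⁻¹)
          have h3 : (φ (w k h))⁻¹ * h * (h⁻¹ * ((φ (w k g))⁻¹ * g) * h⁻¹⁻¹) =
              (φ (w k g * w k h))⁻¹ * (g * h) := by
            rw [map_mul]; group
          rwa [h3] at h2
        rw [PowerSeries.coeff_mk, key k (g * h) _ h1 k le_rfl]
        unfold cf
        rw [TBAS.mag_mul, PowerSeries.coeff_mul, PowerSeries.coeff_mul]
        refine Finset.sum_congr rfl ?_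
        rintro ⟨i, j⟩ hij
        rw [Finset.HasAntidiagonal.mem_antidiagonal] at hij
        simp only at hij ⊢
        rw [PowerSeries.coeff_mk, PowerSeries.coeff_mk]
        have e1 := key k g (w k g) (hw k g) i (by omega)
        have e2 := key k h (w k h) (hw k h) j (by omega)
        unfold cf at e1 e2
        rw [e1, e2] }
  have hψ : ∀ g k, coeff k (ψ g) = cf k (w k g) := fun g k => by
    change coeff k (PowerSeries.mk fun k => cf k (w k g)) = _
    rw [PowerSeries.coeff_mk]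
  refine ⟨ψ, fun g => ?_, ?_⟩
  · rw [hψ]
    exact TBAS.c0 _
  · refine (injective_iff_map_eq_one ψ).2 fun g hg => hres g fun n => ?_
    have h1 : D (n + 1) (w n g) := by
      intro i h1 h2
      rw [← key n g (w n g) (hw n g) i (by omega), ← hψ, hg, PowerSeries.coeff_one,
        if_neg (by omega)]
    have h2 := map_mem_lcs φ n (D_lcs n _ h1)
    have h3 : g = φ (w n g) * ((φ (w n g))⁻¹ * g) := by group
    rw [h3]
    exact Subgroup.mul_mem _ h2 (hw n g)

/-- detection of finitely supported series by polynomial functions -/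
theorem detect {Q : Type} [Group Q] [LinearOrder Q] [MulLeftMono Q] [MulRightMono Q]
    [Group.IsNilpotent Q]
    (hsep : ∀ q q' : Q, q ≠ q' → ∃ f : Q → ℝ, IsPol f ∧ f q ≠ f q') (c : MN Q) (hc : Fin' c)
    (hc0 : c ≠ 0) : ∃ f : Q → ℝ, IsPol f ∧ pair c f ≠ 0 := by
  classical
  obtain ⟨q₀, hq₀⟩ : ∃ q, c.c q ≠ 0 := by
    by_contra hcon
    push Not at hcon
    apply hc0
    ext x
    exact hcon x
  obtain ⟨f, hf, hf0, hfS⟩ := exists_detect hsep (hc.toFinset.erase q₀) q₀
    (Finset.notMem_erase q₀ _)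
  refine ⟨f, hf, ?_⟩
  unfold pair
  rw [finsum_eq_single _ q₀]
  · exact mul_ne_zero (by exact_mod_cast hq₀) hf0
  · intro q hq
    by_cases h : c.c q = 0
    · rw [h, Rat.cast_zero, zero_mul]
    · rw [hfS q (Finset.mem_erase.2 ⟨hq, hc.mem_toFinset.2 h⟩), mul_zero]

theorem of_ne_one (φ : FreeGroup α →* P)
    (hinj : ∀ (n : ℕ) (w : FreeGroup α), φ w ∈ lcs P n → w ∈ lcs (FreeGroup α) n) (b : α) :
    φ (FreeGroup.of b) ≠ 1 := by
  intro h
  have h1 : FreeGroup.of b ∈ lcs (FreeGroup α) 1 := hinj 1 _ (by rw [h]; exact one_mem _)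
  have h2 : FreeGroup.of b ∈ commutator (FreeGroup α) := h1
  have h3 := Abelianization.commutator_subset_ker
    (FreeGroup.lift (fun _ : α => Multiplicative.ofAdd (1 : ℤ))) h2
  rw [MonoidHom.mem_ker, FreeGroup.lift_apply_of] at h3
  exact absurd h3 (by decide)

/-- rank at least two -/
theorem rank_two (φ : FreeGroup α →* P)
    (hsurj : ∀ (n : ℕ) (g : P), ∃ w, (φ w)⁻¹ * g ∈ lcs P n)
    (hinj : ∀ (n : ℕ) (w : FreeGroup α), φ w ∈ lcs P n → w ∈ lcs (FreeGroup α) n)
    (hres : ∀ g : P, (∀ n, g ∈ lcs P n) → g = 1) (a b : α) (hab : b ≠ a)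
    (N : Subgroup P) [N.Normal] (hfg : N.FG) (hN : N ≠ ⊥) : Finite (P ⧸ N) := by
  obtain ⟨ψ, h0, hψ⟩ := exists_psi φ hsurj hinj hres
  obtain ⟨o, ho⟩ := exists_ordT α
  let _ : LinearOrder (T α) := o
  have hA : ∀ a b : T α, a < b ↔ 0 < b - a := ho
  let c : P → ℕ → T α := fun g k => coeff k (ψ g)
  have hc : Function.Injective c := by
    intro g g' h
    apply hψ
    ext k : 1
    exact congrFun h k
  let _ : LinearOrder P := ordG c hc
  have _ : MulLeftMono P := ordG_left c hA (fun h g g' n hn => psi_left ψ h0 h g g' n hn) hc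
  have _ : MulRightMono P := ordG_right c hA (fun h g g' n hn => psi_right ψ h0 h g g' n hn) hc
  let _ : ∀ n, LinearOrder (P ⧸ CC ψ n) := fun n => ordG (cq ψ n) (cq_injective ψ n)
  have _ : ∀ n, MulLeftMono (P ⧸ CC ψ n) := fun n =>
    ordG_left (cq ψ n) hA (cq_left ψ h0 n) (cq_injective ψ n)
  have _ : ∀ n, MulRightMono (P ⧸ CC ψ n) := fun n =>
    ordG_right (cq ψ n) hA (cq_right ψ h0 n) (cq_injective ψ n)
  have _ : ∀ n, Group.IsNilpotent (P ⧸ CC ψ n) := quot_CC_nilp ψ h0
  have hlt : ∀ (g g' : P) (m : ℕ), (∀ i < m, c g i = c g' i) → c g m < c g' m → ∀ n, m < n →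
      (QuotientGroup.mk' (CC ψ n) g) < (QuotientGroup.mk' (CC ψ n) g') := by
    intro g g' m h1 h2 n hn
    refine (ordG_lt (cq ψ n) (cq_injective ψ n) _ _).2 ⟨m, fun i hi => ?_, ?_⟩
    · change cq ψ n (QuotientGroup.mk g) i = cq ψ n (QuotientGroup.mk g') i
      rw [cq_mk, cq_mk, if_pos (hi.trans hn), if_pos (hi.trans hn)]
      exact h1 i hi
    · change cq ψ n (QuotientGroup.mk g) m < cq ψ n (QuotientGroup.mk g') m
      rw [cq_mk, cq_mk, if_pos hn, if_pos hn]
      exact h2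
  refine finite_quotient (Q := fun n => P ⧸ CC ψ n) (π := fun n => QuotientGroup.mk' (CC ψ n))
    (φ (FreeGroup.of a)) (φ (FreeGroup.of b)) (of_ne_one φ hinj b) ?_ ?_ ?_ N hfg hN
  · intro n x hx hx0
    obtain ⟨f, hf, hpair⟩ := detect (sep_Pol ψ h0 dualT n) x hx hx0
    obtain ⟨d, hd, hda, hdb⟩ := exists_der_para φ hsurj hinj (QuotientGroup.mk' (CC ψ n)) a b hab
      f hf
    exact ⟨d, hd, hdb, by rw [hda]; exact hpair⟩
  · intro n g g' hgg
    rcases (ordG_le c hc g g').1 hgg with rfl | hl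
    · exact le_rfl
    · obtain ⟨m, h1, h2⟩ := (ordG_lt c hc g g').1 hl
      by_cases hm : m < n
      · exact (hlt g g' m h1 h2 n hm).le
      · refine le_of_eq (cq_injective ψ n ?_)
        funext k
        change cq ψ n (QuotientGroup.mk g) k = cq ψ n (QuotientGroup.mk g') k
        rw [cq_mk, cq_mk]
        by_cases hk : k < n
        · rw [if_pos hk, if_pos hk]
          exact h1 k (by omega)
        · rw [if_neg hk, if_neg hk]
  · intro g hg
    obtain ⟨m, h1, h2⟩ := (ordG_lt c hc 1 g).1 hg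
    filter_upwards [eventually_gt_atTop m] with n hn
    have := hlt 1 g m h1 h2 n hn
    rwa [map_one] at this

/-- rank at most one -/
theorem rank_one [Subsingleton α]
    (h : ∀ n : ℕ, Nonempty ((P ⧸ lcs P n) ≃* (FreeGroup α ⧸ lcs (FreeGroup α) n)))
    (hres : ∀ g : P, (∀ n, g ∈ lcs P n) → g = 1)
    (N : Subgroup P) [N.Normal] (hN : N ≠ ⊥) : Finite (P ⧸ N) := by
  -- a free group of rank at most one is cyclic
  have hcyc : ∃ x : FreeGroup α, ∀ y, y ∈ Subgroup.zpowers x := by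
    rcases isEmpty_or_nonempty α with hα | ⟨⟨a⟩⟩
    · exact ⟨1, fun y => by
        have : y = 1 := Subsingleton.elim _ _
        rw [this]; exact one_mem _⟩
    · refine ⟨FreeGroup.of a, fun y => ?_⟩
      refine FreeGroup.induction_on y (one_mem _) ?_ ?_ ?_
      · intro j
        rw [Subsingleton.elim j a]
        exact Subgroup.mem_zpowers _
      · intro j hj
        exact Subgroup.inv_mem _ hj
      · intro v w hv hw
        exact Subgroup.mul_mem _ hv hw
  obtain ⟨x, hx⟩ := hcyc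
  have hcommF : ∀ u v : FreeGroup α, u * v = v * u := by
    intro u v
    obtain ⟨i, rfl⟩ := Subgroup.mem_zpowers_iff.1 (hx u)
    obtain ⟨j, rfl⟩ := Subgroup.mem_zpowers_iff.1 (hx v)
    exact (Commute.refl x).zpow_zpow i j
  -- `P` is commutative
  have hcommP : ∀ u v : P, u * v = v * u := by
    intro u v
    have h1 : ∀ n, (v * u)⁻¹ * (u * v) ∈ lcs P n := by
      intro n
      obtain ⟨e⟩ := h n
      refine QuotientGroup.eq.1 ?_
      apply e.injective
      rw [QuotientGroup.mk_mul, QuotientGroup.mk_mul, map_mul, map_mul]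
      obtain ⟨s, hs⟩ := QuotientGroup.mk'_surjective _ (e (QuotientGroup.mk u))
      obtain ⟨t, ht⟩ := QuotientGroup.mk'_surjective _ (e (QuotientGroup.mk v))
      rw [← hs, ← ht, ← map_mul, ← map_mul, hcommF]
    have h2 := hres _ h1
    rw [inv_mul_eq_one] at h2
    exact h2.symm
  have hl1 : lcs P 1 = ⊥ := by
    have h1 : lcs P 1 = commutator P := rfl
    rw [h1, commutator_def, eq_bot_iff, Subgroup.commutator_le]
    intro u _ v _
    rw [Subgroup.mem_bot, commutatorElement_def, hcommP u v]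
    group
  -- `P` is cyclic
  obtain ⟨e⟩ := h 1
  obtain ⟨p, hp⟩ := QuotientGroup.mk'_surjective (lcs P 1) (e.symm (QuotientGroup.mk x))
  have hpgen : ∀ g : P, g ∈ Subgroup.zpowers p := by
    intro g
    obtain ⟨w, hw⟩ := QuotientGroup.mk'_surjective (lcs (FreeGroup α) 1) (e (QuotientGroup.mk g))
    obtain ⟨i, rfl⟩ := Subgroup.mem_zpowers_iff.1 (hx w)
    have h1 : (QuotientGroup.mk' (lcs P 1)) (p ^ i) = QuotientGroup.mk g := by
      rw [map_zpow, hp]
      have h2 : e.symm (e (QuotientGroup.mk g)) = e.symm (QuotientGroup.mk' _ (x ^ i)) := by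
        rw [hw]
      rw [e.symm_apply_apply, map_zpow, map_zpow] at h2
      exact h2.symm
    have h3 : (p ^ i)⁻¹ * g ∈ lcs P 1 := QuotientGroup.eq.1 h1
    rw [hl1, Subgroup.mem_bot, inv_mul_eq_one] at h3
    rw [← h3]
    exact Subgroup.zpow_mem_zpowers p i
  -- the quotient is generated by an element of finite order
  obtain ⟨g, hgN, hg⟩ : ∃ g ∈ N, g ≠ 1 := by
    by_contra hcon
    push Not at hcon
    exact hN ((Subgroup.eq_bot_iff_forall N).2 hcon)
  obtain ⟨i, rfl⟩ := Subgroup.mem_zpowers_iff.1 (hpgen g)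
  have hi : i ≠ 0 := by
    rintro rfl
    exact hg (zpow_zero p)
  have hfin : IsOfFinOrder (QuotientGroup.mk p : P ⧸ N) := by
    rw [isOfFinOrder_iff_zpow_eq_one]
    refine ⟨i, hi, ?_⟩
    rw [← QuotientGroup.mk_zpow]
    exact (QuotientGroup.eq_one_iff _).2 hgN
  have hz : (Subgroup.zpowers (QuotientGroup.mk p : P ⧸ N)) = ⊤ := by
    rw [eq_top_iff]
    intro y _
    obtain ⟨u, rfl⟩ := QuotientGroup.mk'_surjective N y
    obtain ⟨j, rfl⟩ := Subgroup.mem_zpowers_iff.1 (hpgen u)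
    rw [map_zpow]
    exact Subgroup.zpow_mem_zpowers _ _
  have h1 : Finite (Subgroup.zpowers (QuotientGroup.mk p : P ⧸ N)) := finite_zpowers.2 hfin
  rw [hz] at h1
  exact Finite.of_equiv _ Subgroup.topEquiv.toEquiv

/-- **Main theorem.** -/
theorem main (hres : (⨅ n : ℕ, lcs P n) = ⊥)
    (h : ∀ n : ℕ, Nonempty ((P ⧸ lcs P n) ≃* (FreeGroup α ⧸ lcs (FreeGroup α) n)))
    (N : Subgroup P) [N.Normal] (hfg : N.FG) (hN : N ≠ ⊥) : Finite (P ⧸ N) := by
  have hres' : ∀ g : P, (∀ n, g ∈ lcs P n) → g = 1 := by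
    intro g hg
    have : g ∈ ⨅ n : ℕ, lcs P n := Subgroup.mem_iInf.2 hg
    rwa [hres, Subgroup.mem_bot] at this
  rcases subsingleton_or_nontrivial α with hα | ⟨⟨a, b, hab⟩⟩
  · exact rank_one h hres' N hN
  · obtain ⟨φ, hsurj, hinj⟩ := exists_phi h
    exact rank_two φ hsurj hinj hres' a b (Ne.symm hab) N hfg hN

end Pool.Agent.TH714.PF
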