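import Pool.Agent.H979R3.Ord

set_option autoImplicit false
set_option linter.unusedSectionVars false

/-!
Support of inverses of Malcev-Neumann series.
-/

namespace Pool.Agent.TH714.PF

open Pool.Agent.H979R3 Set
open scoped Pointwise

variable {G : Type*} [Group G] [LinearOrder G] [MulLeftMono G] [MulRightMono G]

theorem ex_inv_one_sub_supp (y : MN G) (hy : ∀ x, y.c x ≠ 0 → 1 < x) :
    ∃ z : MN G, (1 - y) * z = 1 ∧
      ∀ x, z.c x ≠ 0 → x ∈ Submonoid.closure (Function.support y.c) := by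
  have hM : (Submonoid.closure (Function.support y.c) : Set G).IsPWO :=
    pwo_closure y.pwo (fun x hx => (hy x hx).le)
  have hN : ∀ x : G, ∃ N : ℕ, ∀ n, N ≤ n → (y ^ n).c x = 0 := by
    intro x
    obtain ⟨N, hN⟩ := (MN.nilp y hy x).bddAbove
    refine ⟨N + 1, fun n hn => ?_⟩
    by_contra h
    have := hN h
    omega
  choose N hN using hN
  have hsumc : ∀ (K : ℕ) (x : G), (∑ n ∈ Finset.range K, y ^ n).c x =
      ∑ n ∈ Finset.range K, (y ^ n).c x := by
    intro K x
    induction K with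
    | zero => simp
    | succ K ih => rw [Finset.sum_range_succ, Finset.sum_range_succ, MN.add_c, ih]
  have hsup : ∀ x, ∑ n ∈ Finset.range (N x), (y ^ n).c x ≠ 0 →
      x ∈ (Submonoid.closure (Function.support y.c) : Set G) := by
    intro x hx
    obtain ⟨n, _, hn⟩ := Finset.exists_ne_zero_of_sum_ne_zero hx
    exact MN.supp_pow y n hn
  let z : MN G := ⟨fun x => ∑ n ∈ Finset.range (N x), (y ^ n).c x, hM.mono hsup⟩
  have hz : ∀ (x : G) (K : ℕ), N x ≤ K → z.c x = (∑ n ∈ Finset.range K, y ^ n).c x := by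
    intro x K hK
    rw [hsumc]
    change ∑ n ∈ Finset.range (N x), (y ^ n).c x = _
    apply Finset.sum_subset (Finset.range_mono hK)
    intro n _ hn
    exact hN x n (by simpa using hn)
  have hz0 : ∀ (x : G), x ∉ (Submonoid.closure (Function.support y.c) : Set G) → ∀ K : ℕ,
      (∑ n ∈ Finset.range K, y ^ n).c x = 0 := by
    intro x hx K
    rw [hsumc]
    apply Finset.sum_eq_zero
    intro n _
    by_contra h
    exact hx (MN.supp_pow y n h)
  refine ⟨z, ?_, fun x hx => hsup x hx⟩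
  ext x
  have hfin := fin_pairs (1 - y).pwo hM x
  -- a bound valid at all relevant points
  have hK : ∃ K : ℕ, N x ≤ K ∧ ∀ a ∈ {a : G | a ∈ Function.support (1 - y).c ∧ a⁻¹ * x ∈
      (Submonoid.closure (Function.support y.c) : Set G)}, N (a⁻¹ * x) ≤ K := by
    obtain ⟨K, hK⟩ := (hfin.image (fun a => N (a⁻¹ * x))).bddAbove
    refine ⟨max (N x) K, le_max_left _ _, fun a ha => le_trans (hK ⟨a, ha, rfl⟩) (le_max_right _ _)⟩
  obtain ⟨K, hK1, hK2⟩ := hK
  have e1 : ((1 - y) * z).c x = ((1 - y) * (∑ n ∈ Finset.range K, y ^ n)).c x := by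
    rw [MN.mul_c, MN.mul_c]
    apply finsum_congr
    intro a
    by_cases ha : (1 - y).c a = 0
    · rw [ha, zero_mul, zero_mul]
    · by_cases hax : a⁻¹ * x ∈ (Submonoid.closure (Function.support y.c) : Set G)
      · rw [hz _ K (hK2 a ⟨ha, hax⟩)]
      · rw [hz _ (N (a⁻¹ * x)) le_rfl, hz0 _ hax, hz0 _ hax]
  rw [e1, mul_neg_geom_sum, MN.sub_c, hN x K hK1, sub_zero]

theorem inv_one_sub_supp (y : MN G) (hy : ∀ x, y.c x ≠ 0 → 1 < x) :
    ∀ x, (1 - y)⁻¹.c x ≠ 0 → x ∈ Submonoid.closure (Function.support y.c) := by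
  obtain ⟨z, hz, hs⟩ := ex_inv_one_sub_supp y hy
  rw [inv_eq_of_mul_eq_one_right hz]
  exact hs

/-- The shape of a nonzero series. -/
theorem shape (f : MN G) (hf : f ≠ 0) : ∃ g : G, f.c g ≠ 0 ∧ ∃ y : MN G,
    y = 1 - MN.single g⁻¹ (f.c g)⁻¹ * f ∧ (∀ x, y.c x ≠ 0 → 1 < x) ∧
    (∀ x, y.c x ≠ 0 → f.c (g * x) ≠ 0) ∧ f = MN.single g (f.c g) * (1 - y) ∧
    f⁻¹ = (1 - y)⁻¹ * MN.single g⁻¹ (f.c g)⁻¹ := by
  obtain ⟨g, hg, hlt⟩ := MN.ex_lead f hf
  refine ⟨g, hg, 1 - MN.single g⁻¹ (f.c g)⁻¹ * f, rfl, ?_, ?_, ?_, ?_⟩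
  · intro x hx
    rw [MN.sub_c, MN.single_mul_c, inv_inv] at hx
    by_contra h
    rw [not_lt] at h
    apply hx
    rcases h.eq_or_lt with h | h
    · subst h
      rw [MN.one_def, MN.single_same, mul_one, inv_mul_cancel₀ hg, sub_self]
    · have : g * x < g := by
        calc g * x < g * 1 := mul_lt_mul_right h g
          _ = g := mul_one g
      rw [hlt _ this, MN.one_def, MN.single_ne _ _ _ h.ne, mul_zero, sub_zero]
  · intro x hx h0
    rw [MN.sub_c, MN.single_mul_c, inv_inv, h0, mul_zero, sub_zero] at hx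
    have hx1 : x = 1 := by
      by_contra h
      exact hx (MN.single_ne _ _ _ h)
    rw [hx1, mul_one] at h0
    exact hg h0
  · rw [sub_sub_cancel, ← mul_assoc, MN.single_mul_single, mul_inv_cancel, mul_inv_cancel₀ hg,
      ← MN.one_def, one_mul]
  · have h1 : MN.single g (f.c g) * MN.single g⁻¹ (f.c g)⁻¹ = 1 := by
      rw [MN.single_mul_single, mul_inv_cancel, mul_inv_cancel₀ hg, ← MN.one_def]
    have h2 : MN.single g⁻¹ (f.c g)⁻¹ = (MN.single g (f.c g))⁻¹ :=
      (inv_eq_of_mul_eq_one_right h1).symm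
    rw [sub_sub_cancel, h2, ← mul_inv_rev, ← h2, ← mul_assoc, h1, one_mul]

/-- the series supported in a subgroup -/
noncomputable def subN (N : Subgroup G) : Subfield (MN G) where
  carrier := {z | ∀ x, z.c x ≠ 0 → x ∈ N}
  mul_mem' := by
    intro a b ha hb x hx
    obtain ⟨u, hu, v, hv, rfl⟩ := MN.supp_mul a b hx
    exact N.mul_mem (ha u hu) (hb v hv)
  one_mem' := by
    intro x hx
    by_cases h : x = 1
    · rw [h]; exact N.one_mem
    · exact absurd (MN.single_ne _ _ _ h) hx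
  add_mem' := by
    intro a b ha hb x hx
    rw [MN.add_c] at hx
    by_cases h : a.c x = 0
    · rw [h, zero_add] at hx
      exact hb x hx
    · exact ha x h
  zero_mem' := fun x hx => absurd rfl hx
  neg_mem' := by
    intro a ha x hx
    rw [MN.neg_c] at hx
    exact ha x (neg_ne_zero.1 hx)
  inv_mem' := by
    intro f hf
    by_cases h0 : f = 0
    · rw [h0, inv_zero]
      exact fun x hx => absurd rfl hx
    · obtain ⟨g, hg, y, _, hy1, hy2, _, hinv⟩ := shape f h0
      have hgN : g ∈ N := hf g hg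
      have hyN : ∀ x, y.c x ≠ 0 → x ∈ N := fun x hx => by
        have := hf _ (hy2 x hx)
        exact (N.mul_mem_cancel_left hgN).1 this
      intro x hx
      rw [hinv, MN.mul_single_c, inv_inv] at hx
      have h1 := inv_one_sub_supp y hy1 _ (left_ne_zero_of_mul hx)
      have h2 : Submonoid.closure (Function.support y.c) ≤ N.toSubmonoid :=
        (Submonoid.closure_le).2 fun x hx => hyN x hx
      exact (N.mul_mem_cancel_right hgN).1 (h2 h1)

theorem mem_subN {N : Subgroup G} {z : MN G} : z ∈ subN N ↔ ∀ x, z.c x ≠ 0 → x ∈ N := Iff.rfl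

theorem single_mem_subN {N : Subgroup G} {g : G} (hg : g ∈ N) (r : ℚ) :
    MN.single g r ∈ subN N := by
  intro x hx
  by_cases h : x = g
  · rw [h]; exact hg
  · exact absurd (MN.single_ne _ _ _ h) hx

end Pool.Agent.TH714.PF
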