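import Pool.Agent.H32CE.TMAG
import Pool.Agent.H32CE.TGRL
import Pool.Agent.H32CE.TLYN
import Pool.Agent.H32CE.TINJ
import Pool.Agent.H32CE.TBAS

set_option autoImplicit false
set_option linter.unusedSectionVars false

/-!
Magnus' theorem for free groups of arbitrary rank.
-/

namespace Pool.Agent.TH714.PF

open Pool.Agent.H32CE PowerSeries

theorem bas : S_BAS := t_BAS

theorem magn : S_MAG := t_MAG t_GRL (t_INJ t_LYN) t_BAS

theorem cf_one {α : Type} (k : ℕ) (hk : 1 ≤ k) : cf k (1 : FreeGroup α) = 0 :=
  TMAG.cf_one bas k hk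

/-- the easy direction -/
theorem lcs_D {α : Type} (n : ℕ) :
    ∀ x ∈ (⊤ : Subgroup (FreeGroup α)).lowerCentralSeries n, D (n + 1) x := by
  induction n with
  | zero =>
    intro x _ i h1 h2
    omega
  | succ n ih =>
    intro x hx
    obtain ⟨_, _, hmul, hinv, _⟩ := bas α
    have hx' := (Subgroup.mem_lowerCentralSeries_succ_iff (⊤ : Subgroup (FreeGroup α)) n
      x).1 hx
    refine Subgroup.closure_induction (p := fun x _ => D (n + 1 + 1) x) ?_ (TMAG.D_one bas _) ?_ ?_
      hx'
    · rintro x ⟨y, hy, z, _, rfl⟩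
      rw [commutatorElement_def]
      exact (TMAG.cf_comm bas (ih y hy) z).1
    · intro a b _ _ ha hb
      exact hmul _ _ _ ha hb
    · intro a _ ha
      exact hinv _ _ ha

/-- every element of a free group involves finitely many letters -/
theorem exists_letters {α : Type} (x : FreeGroup α) :
    ∃ S : Finset α, x ∈ Subgroup.closure (FreeGroup.of '' (S : Set α)) := by
  classical
  refine FreeGroup.induction_on x ⟨∅, Subgroup.one_mem _⟩ ?_ ?_ ?_
  · intro j
    refine ⟨{j}, Subgroup.subset_closure ⟨j, ?_, rfl⟩⟩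
    simp
  · rintro j ⟨S, hS⟩
    exact ⟨S, Subgroup.inv_mem _ hS⟩
  · rintro a b ⟨S, hS⟩ ⟨T, hT⟩
    refine ⟨S ∪ T, Subgroup.mul_mem _ ?_ ?_⟩
    · refine Subgroup.closure_mono (Set.image_mono ?_) hS
      exact_mod_cast Finset.subset_union_left
    · refine Subgroup.closure_mono (Set.image_mono ?_) hT
      exact_mod_cast Finset.subset_union_right

theorem exists_fin_rank {α : Type} (x : FreeGroup α) :
    ∃ (r : ℕ) (e : Fin r → α), Function.Injective e ∧ x ∈ (FreeGroup.map e).range := by
  obtain ⟨S, hS⟩ := exists_letters x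
  refine ⟨S.card, fun i => (S.equivFin.symm i : α), ?_, ?_⟩
  · intro i j hij
    exact S.equivFin.symm.injective (Subtype.ext hij)
  · refine (Subgroup.closure_le _).2 ?_ hS
    rintro _ ⟨j, hj, rfl⟩
    refine ⟨FreeGroup.of (S.equivFin ⟨j, hj⟩), ?_⟩
    rw [FreeGroup.map.of]
    simp

/-- renaming of the letters -/
noncomputable def ren {α β : Type} (e : α → β) : T α →ₐ[ℝ] T β :=
  MonoidAlgebra.mapDomainAlgHom ℝ ℝ (FreeMonoid.map e)

theorem ren_X {α β : Type} (e : α → β) (j : α) : ren e (H32CE.X j) = H32CE.X (e j) := by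
  unfold ren H32CE.X
  rw [MonoidAlgebra.mapDomainAlgHom_apply, MonoidAlgebra.mapDomain_single]
  simp

theorem ren_injective {α β : Type} (e : α → β) (he : Function.Injective e) :
    Function.Injective (ren e) := by
  unfold ren
  have h1 : Function.Injective (FreeMonoid.map e) := by
    intro a b hab
    exact List.map_injective_iff.2 he hab
  exact MonoidAlgebra.mapDomain_injective h1

theorem cf_map {α β : Type} (e : α → β) (k : ℕ) (x : FreeGroup α) :
    cf k (FreeGroup.map e x) = ren e (cf k x) := by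
  have h : (magU β).comp (FreeGroup.map e) =
      (Units.map (PowerSeries.map (ren e).toRingHom).toMonoidHom).comp (magU α) := by
    ext j : 1
    apply Units.ext
    simp only [MonoidHom.comp_apply, magU, FreeGroup.map.of, FreeGroup.lift_apply_of]
    ext n : 1
    change PowerSeries.coeff n (ex 1 (X (e j))) =
      PowerSeries.coeff n (PowerSeries.map (ren e).toRingHom (ex 1 (X j)))
    rw [PowerSeries.coeff_map]
    simp only [ex, PowerSeries.coeff_mk, one_dvd, if_true]
    change _ = ren e _
    rw [map_smul, map_pow, ren_X]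
  unfold cf mag
  have h2 := DFunLike.congr_fun h x
  have h3 := congrArg (fun u : (PS (T β))ˣ => PowerSeries.coeff k (u : PS (T β))) h2
  simp only [MonoidHom.comp_apply] at h3
  rw [h3]
  change PowerSeries.coeff k (PowerSeries.map (ren e).toRingHom _) = _
  rw [PowerSeries.coeff_map]
  rfl

/-- **Magnus' theorem** in arbitrary rank. -/
theorem D_lcs {α : Type} (n : ℕ) (x : FreeGroup α) (hx : D (n + 1) x) :
    x ∈ (⊤ : Subgroup (FreeGroup α)).lowerCentralSeries n := by
  obtain ⟨r, e, he, y, rfl⟩ := exists_fin_rank x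
  have hy : D (n + 1) y := by
    intro i h1 h2
    have h3 := hx i h1 h2
    rw [cf_map] at h3
    exact (map_eq_zero_iff (ren e) (ren_injective e he)).1 h3
  have h4 := (magn r n y).1 hy
  have h5 : FreeGroup.map e y ∈ (gam (FreeGroup (Fin r)) n).map (FreeGroup.map e) :=
    Subgroup.mem_map_of_mem _ h4
  rw [Subgroup.map_lowerCentralSeries] at h5
  exact Subgroup.lowerCentralSeries_mono _ le_top h5

/-- low coefficients only depend on the class -/
theorem cf_congr {α : Type} (n : ℕ) (x y : FreeGroup α)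
    (h : x⁻¹ * y ∈ (⊤ : Subgroup (FreeGroup α)).lowerCentralSeries n) (i : ℕ) (hi : i ≤ n) :
    cf i x = cf i y := by
  obtain ⟨h0, _, _, _, _, _, _, _, _, _, h11⟩ := bas α
  rcases i with _ | i
  · unfold cf
    rw [h0, h0]
  · exact (h11 n x y).2 (lcs_D n _ h) (i + 1) (by omega) hi

end Pool.Agent.TH714.PF
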