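import Pool.Agent.H979R3.Ord
import Pool.Agent.TH714.PF.Fol

set_option autoImplicit false

/-!
The left Ore condition for finitely supported Malcev-Neumann series over a nilpotent ordered group.
-/

namespace Pool.Agent.TH714.PF

open Pool.Agent.H979R3
open scoped Pointwise
open Classical

variable {G : Type*} [Group G] [LinearOrder G] [MulLeftMono G] [MulRightMono G]

/-- the additive coefficient maps -/
def coefHom (x : G) : MN G →+ ℚ where
  toFun f := f.c x
  map_zero' := rfl
  map_add' _ _ := rfl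

theorem sum_c {ι : Type*} (s : Finset ι) (f : ι → MN G) (x : G) :
    (∑ i ∈ s, f i).c x = ∑ i ∈ s, (f i).c x :=
  map_sum (coefHom x) f s

/-- finitely supported series -/
def Fin' (z : MN G) : Prop := (Function.support z.c).Finite

/-- the series with coefficients `u` on `Φ` -/
noncomputable def ofFun (Φ : Finset G) (u : {g // g ∈ Φ} → ℚ) : MN G :=
  ∑ g : {g // g ∈ Φ}, MN.single (g : G) (u g)

theorem ofFun_c (Φ : Finset G) (u : {g // g ∈ Φ} → ℚ) (g : {g // g ∈ Φ}) :
    (ofFun Φ u).c (g : G) = u g := by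
  rw [ofFun, sum_c, Finset.sum_eq_single g]
  · exact MN.single_same _ _
  · intro b _ hb
    exact MN.single_ne _ _ _ (fun h => hb (Subtype.ext h.symm))
  · intro h
    exact absurd (Finset.mem_univ _) h

theorem ofFun_supp (Φ : Finset G) (u : {g // g ∈ Φ} → ℚ) (x : G) (hx : (ofFun Φ u).c x ≠ 0) :
    x ∈ Φ := by
  by_contra h
  apply hx
  rw [ofFun, sum_c]
  refine Finset.sum_eq_zero fun g _ => MN.single_ne _ _ _ ?_
  rintro rfl
  exact h g.2

theorem ofFun_fin (Φ : Finset G) (u : {g // g ∈ Φ} → ℚ) : Fin' (ofFun Φ u) :=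
  (Φ.finite_toSet).subset fun x hx => ofFun_supp Φ u x hx

theorem ofFun_mul_c (Φ : Finset G) (u : {g // g ∈ Φ} → ℚ) (z : MN G) (x : G) :
    (ofFun Φ u * z).c x = ∑ g : {g // g ∈ Φ}, u g * z.c ((g : G)⁻¹ * x) := by
  rw [ofFun, Finset.sum_mul, sum_c]
  exact Finset.sum_congr rfl fun g _ => MN.single_mul_c _ _ _ _

theorem ore [Group.IsNilpotent G] (r c : MN G) (hr : Fin' r) (hc : Fin' c) (hc0 : c ≠ 0) :
    ∃ c' r' : MN G, Fin' c' ∧ Fin' r' ∧ c' ≠ 0 ∧ c' * r = r' * c := by
  set S : Finset G := hr.toFinset ∪ hc.toFinset with hS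
  obtain ⟨Φ, hΦne, hΦ⟩ := (fol_nilpotent G).ex S (1 / 2) (by norm_num)
  have hcard : (Φ * S).card < 2 * Φ.card := by
    have h1 : 0 < Φ.card := hΦne.card_pos
    have h2 : (0 : ℝ) < Φ.card := by exact_mod_cast h1
    have h3 : ((Φ * S).card : ℝ) < 2 * Φ.card := by linarith
    exact_mod_cast h3
  -- the linear map
  let L : (({g // g ∈ Φ} → ℚ) × ({g // g ∈ Φ} → ℚ)) →ₗ[ℚ] ({g // g ∈ Φ * S} → ℚ) :=
    { toFun := fun p x => ∑ g : {g // g ∈ Φ}, p.1 g * r.c ((g : G)⁻¹ * x) -
        ∑ g : {g // g ∈ Φ}, p.2 g * c.c ((g : G)⁻¹ * x)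
      map_add' := by
        intro p p'
        funext x
        simp only [Prod.fst_add, Prod.snd_add, Pi.add_apply, add_mul, Finset.sum_add_distrib]
        ring
      map_smul' := by
        intro a p
        funext x
        simp only [Prod.smul_fst, Prod.smul_snd, Pi.smul_apply, smul_eq_mul, RingHom.id_apply,
          mul_assoc, ← Finset.mul_sum]
        ring }
  have hker : LinearMap.ker L ≠ ⊥ := by
    apply LinearMap.ker_ne_bot_of_finrank_lt
    rw [Module.finrank_prod, Module.finrank_fintype_fun_eq_card, Module.finrank_fintype_fun_eq_card,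
      Fintype.card_coe, Fintype.card_coe]
    omega
  obtain ⟨⟨u, v⟩, huv, hne⟩ := Submodule.exists_mem_ne_zero_of_ne_bot hker
  have heq : ofFun Φ u * r = ofFun Φ v * c := by
    rw [← sub_eq_zero]
    ext x
    rw [MN.sub_c, MN.zero_c]
    by_cases hx : x ∈ Φ * S
    · have h1 := congrFun (LinearMap.mem_ker.1 huv) ⟨x, hx⟩
      rw [ofFun_mul_c, ofFun_mul_c]
      exact h1
    · have h0 : ∀ (u : {g // g ∈ Φ} → ℚ) (z : MN G), (∀ y, z.c y ≠ 0 → y ∈ S) →
          (ofFun Φ u * z).c x = 0 := by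
        intro u z hz
        rw [ofFun_mul_c]
        refine Finset.sum_eq_zero fun g _ => ?_
        by_cases h : z.c ((g : G)⁻¹ * x) = 0
        · rw [h, mul_zero]
        · exfalso
          apply hx
          rw [Finset.mem_mul]
          exact ⟨g, g.2, _, hz _ h, by group⟩
      rw [h0 u r, h0 v c, sub_zero]
      · intro y hy
        rw [hS, Finset.mem_union]
        right
        exact hc.mem_toFinset.2 hy
      · intro y hy
        rw [hS, Finset.mem_union]
        left
        exact hr.mem_toFinset.2 hy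
  refine ⟨ofFun Φ u, ofFun Φ v, ofFun_fin Φ u, ofFun_fin Φ v, ?_, heq⟩
  intro hu
  rw [hu, zero_mul] at heq
  have hv : ofFun Φ v = 0 := by
    rcases mul_eq_zero.1 heq.symm with h | h
    · exact h
    · exact absurd h hc0
  apply hne
  have hu' : u = 0 := by
    funext g
    rw [← ofFun_c Φ u g, hu]
    rfl
  have hv' : v = 0 := by
    funext g
    rw [← ofFun_c Φ v g, hv]
    rfl
  rw [hu', hv']
  rfl

end Pool.Agent.TH714.PF
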