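import Mathlib

set_option autoImplicit false
set_option linter.unusedSectionVars false

/-!
A group with the lower central quotients of a free group receives a homomorphism from the free
group inducing isomorphisms of these quotients.
-/

namespace Pool.Agent.TH714.PF

open scoped commutatorElement

/-- In a nilpotent group a subgroup which generates modulo the commutator subgroup is everything. -/
theorem top_of_sup_commutator (G : Type*) [Group G] [Group.IsNilpotent G] :
    ∀ H : Subgroup G, H ⊔ commutator G = ⊤ → H = ⊤ := by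
  refine Group.nilpotent_center_quotient_ind
    (P := fun G _ _ => ∀ H : Subgroup G, H ⊔ commutator G = ⊤ → H = ⊤) G ?_ ?_
  · intro G _ _ H _
    exact Subsingleton.elim _ _
  · intro G _ _ ih H hH
    set q := QuotientGroup.mk' (Subgroup.center G) with hq
    have hqs : Function.Surjective q := QuotientGroup.mk'_surjective _
    have h1 : H.map q ⊔ commutator (G ⧸ Subgroup.center G) = ⊤ := by
      have h2 : (commutator G).map q = commutator (G ⧸ Subgroup.center G) := by
        rw [commutator_def, commutator_def, Subgroup.map_commutator,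
          Subgroup.map_top_of_surjective q hqs]
      rw [← h2, ← Subgroup.map_sup, hH, Subgroup.map_top_of_surjective q hqs]
    have h3 := ih _ h1
    have h4 : ∀ g : G, ∃ h ∈ H, ∃ z ∈ Subgroup.center G, g = h * z := by
      intro g
      have h5 : q g ∈ H.map q := by rw [h3]; trivial
      obtain ⟨h, hh, he⟩ := h5
      refine ⟨h, hh, h⁻¹ * g, ?_, by group⟩
      exact QuotientGroup.eq.1 he
    have h6 : commutator G ≤ H := by
      rw [commutator_def, Subgroup.commutator_le]
      intro a _ b _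
      obtain ⟨x, hx, z, hz, rfl⟩ := h4 a
      obtain ⟨y, hy, w, hw, rfl⟩ := h4 b
      have hz' := Subgroup.mem_center_iff.1 hz
      have hw' := Subgroup.mem_center_iff.1 hw
      have : ⁅x * z, y * w⁆ = ⁅x, y⁆ := by
        simp only [commutatorElement_def, mul_inv_rev]
        calc x * z * (y * w) * (z⁻¹ * x⁻¹) * (w⁻¹ * y⁻¹)
            = x * (z * y) * (w * z⁻¹) * x⁻¹ * w⁻¹ * y⁻¹ := by group
          _ = x * (y * z) * (z⁻¹ * w) * x⁻¹ * w⁻¹ * y⁻¹ := by rw [← hz' y, ← hw' z⁻¹]
          _ = x * y * (w * x⁻¹) * w⁻¹ * y⁻¹ := by group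
          _ = x * y * (x⁻¹ * w) * w⁻¹ * y⁻¹ := by rw [← hw' x⁻¹]
          _ = x * y * x⁻¹ * y⁻¹ := by group
      rw [this, commutatorElement_def]
      exact H.mul_mem (H.mul_mem (H.mul_mem hx hy) (H.inv_mem hx)) (H.inv_mem hy)
    rw [← hH, sup_eq_left.2 h6]

variable {α : Type*} {P : Type*} [Group P]

/-- the lower central series -/
abbrev lcs (G : Type*) [Group G] (n : ℕ) : Subgroup G := (⊤ : Subgroup G).lowerCentralSeries n

theorem map_mem_lcs {G H : Type*} [Group G] [Group H] (f : G →* H) (n : ℕ) {g : G}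
    (hg : g ∈ lcs G n) : f g ∈ lcs H n := by
  have h2 : f g ∈ (lcs G n).map f := Subgroup.mem_map_of_mem f hg
  rw [Subgroup.map_lowerCentralSeries] at h2
  exact Subgroup.lowerCentralSeries_mono _ le_top h2

theorem mem_commutator_of_lcs_one {G : Type*} [Group G] {x : G} (hx : x ∈ lcs G 1) :
    x ∈ commutator G := hx

theorem quot_nilp (G : Type*) [Group G] (n : ℕ) : Group.IsNilpotent (G ⧸ lcs G n) := by
  refine Subgroup.nilpotent_iff_lowerCentralSeries.2 ⟨n, ?_⟩
  rw [eq_bot_iff]
  intro x hx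
  have h1 : (lcs G n).map (QuotientGroup.mk' (lcs G n)) =
      (⊤ : Subgroup (G ⧸ lcs G n)).lowerCentralSeries n := by
    rw [Subgroup.map_lowerCentralSeries,
      Subgroup.map_top_of_surjective _ (QuotientGroup.mk'_surjective _)]
  rw [← h1] at hx
  obtain ⟨g, hg, rfl⟩ := hx
  rw [Subgroup.mem_bot]
  exact (QuotientGroup.eq_one_iff g).2 hg

/-- surjectivity modulo each term -/
theorem surj_lcs (φ : FreeGroup α →* P) (h1 : ∀ g : P, ∃ w, (φ w)⁻¹ * g ∈ lcs P 1) (n : ℕ)
    (g : P) : ∃ w, (φ w)⁻¹ * g ∈ lcs P n := by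
  have := quot_nilp P n
  set q := QuotientGroup.mk' (lcs P n) with hq
  have hqs : Function.Surjective q := QuotientGroup.mk'_surjective _
  have htop : (q.comp φ).range = ⊤ := by
    apply top_of_sup_commutator
    rw [eq_top_iff]
    intro x _
    obtain ⟨g, rfl⟩ := hqs x
    obtain ⟨w, hw⟩ := h1 g
    have e : q g = (q.comp φ) w * q ((φ w)⁻¹ * g) := by
      rw [MonoidHom.comp_apply, ← map_mul]
      congr 1
      group
    rw [e]
    refine Subgroup.mul_mem_sup ⟨w, rfl⟩ ?_
    exact mem_commutator_of_lcs_one (map_mem_lcs q 1 hw)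
  have h3 : q g ∈ (q.comp φ).range := by rw [htop]; trivial
  obtain ⟨w, hw⟩ := h3
  exact ⟨w, QuotientGroup.eq.1 hw⟩

/-- injectivity modulo each term -/
theorem inj_lcs (φ : FreeGroup α →* P) (h1 : ∀ g : P, ∃ w, (φ w)⁻¹ * g ∈ lcs P 1)
    (h1' : ∀ w, φ w ∈ lcs P 1 → w ∈ lcs (FreeGroup α) 1) (n : ℕ) (hn : 1 ≤ n)
    (e : (P ⧸ lcs P n) ≃* (FreeGroup α ⧸ lcs (FreeGroup α) n)) (w : FreeGroup α)
    (hw : φ w ∈ lcs P n) : w ∈ lcs (FreeGroup α) n := by
  set G := FreeGroup α ⧸ lcs (FreeGroup α) n with hG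
  have hnil : Group.IsNilpotent G := quot_nilp (FreeGroup α) n
  set q : FreeGroup α →* G := QuotientGroup.mk' (lcs (FreeGroup α) n) with hq
  have hqs : Function.Surjective q := QuotientGroup.mk'_surjective _
  -- the surjective endomorphism
  let φn : G →* (P ⧸ lcs P n) := QuotientGroup.map _ _ φ (fun x hx => map_mem_lcs φ n hx)
  let θ : G →* G := e.toMonoidHom.comp φn
  have hθs : Function.Surjective θ := by
    intro x
    obtain ⟨y, rfl⟩ := e.surjective x
    obtain ⟨g, rfl⟩ := QuotientGroup.mk'_surjective _ y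
    obtain ⟨w, hw⟩ := surj_lcs φ h1 n g
    refine ⟨q w, ?_⟩
    change e (φn (q w)) = e _
    congr 1
    exact QuotientGroup.eq.2 hw
  -- a section
  choose s hs using fun j : α => hθs (q (FreeGroup.of j))
  choose t ht using fun j : α => hqs (s j)
  let ψ₀ : FreeGroup α →* G := FreeGroup.lift s
  let ψ₁ : FreeGroup α →* FreeGroup α := FreeGroup.lift t
  have hψ₁ : ∀ w, q (ψ₁ w) = ψ₀ w := by
    intro w
    have : q.comp ψ₁ = ψ₀ := by
      ext j
      simp only [MonoidHom.comp_apply, ψ₁, ψ₀, FreeGroup.lift_apply_of]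
      exact ht j
    exact DFunLike.congr_fun this w
  let ψ : G →* G := QuotientGroup.lift (lcs (FreeGroup α) n) ψ₀ (fun x hx => by
    rw [MonoidHom.mem_ker, ← hψ₁]
    exact (QuotientGroup.eq_one_iff _).2 (map_mem_lcs ψ₁ n hx))
  have hθψ : ∀ x, θ (ψ x) = x := by
    intro x
    obtain ⟨w, rfl⟩ := hqs x
    have : (θ.comp ψ).comp q = q := by
      ext j
      simp only [MonoidHom.comp_apply]
      have e1 : ψ (q (FreeGroup.of j)) = ψ₀ (FreeGroup.of j) := rfl
      rw [e1]
      simp only [ψ₀, FreeGroup.lift_apply_of]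
      exact hs j
    exact DFunLike.congr_fun this w
  -- the kernel of `θ` is in the commutator subgroup
  have hker : ∀ x, θ x = 1 → x ∈ commutator G := by
    intro x hx
    obtain ⟨w, rfl⟩ := hqs x
    have h2 : φn (q w) = 1 := by
      have : e (φn (q w)) = e 1 := by rw [map_one]; exact hx
      exact e.injective this
    have h3 : φ w ∈ lcs P n := (QuotientGroup.eq_one_iff _).1 h2
    have h4 := h1' w (Subgroup.lowerCentralSeries_antitone _ hn h3)
    exact mem_commutator_of_lcs_one (map_mem_lcs q 1 h4)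
  have hψs : ψ.range = ⊤ := by
    apply top_of_sup_commutator
    rw [eq_top_iff]
    intro x _
    have h2 : x = ψ (θ x) * ((ψ (θ x))⁻¹ * x) := by group
    rw [h2]
    refine Subgroup.mul_mem_sup ⟨_, rfl⟩ (hker _ ?_)
    rw [map_mul, map_inv, hθψ, inv_mul_cancel]
  have hθi : ∀ x, θ x = 1 → x = 1 := by
    intro x hx
    obtain ⟨y, rfl⟩ : x ∈ ψ.range := by rw [hψs]; trivial
    rw [hθψ] at hx
    rw [hx, map_one]
  have h2 : θ (q w) = 1 := by
    change e (φn (q w)) = 1
    have : φn (q w) = 1 := (QuotientGroup.eq_one_iff _).2 hw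
    rw [this, map_one]
  exact (QuotientGroup.eq_one_iff _).1 (hθi _ h2)

/-- **The comparison homomorphism.** -/
theorem exists_phi (h : ∀ n : ℕ, Nonempty ((P ⧸ lcs P n) ≃* (FreeGroup α ⧸ lcs (FreeGroup α) n))) :
    ∃ φ : FreeGroup α →* P, (∀ (n : ℕ) (g : P), ∃ w, (φ w)⁻¹ * g ∈ lcs P n) ∧
      (∀ (n : ℕ) (w : FreeGroup α), φ w ∈ lcs P n → w ∈ lcs (FreeGroup α) n) := by
  obtain ⟨e⟩ := h 1
  let q : FreeGroup α →* _ := QuotientGroup.mk' (lcs (FreeGroup α) 1)
  let p : P →* _ := QuotientGroup.mk' (lcs P 1)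
  have hps : Function.Surjective p := QuotientGroup.mk'_surjective _
  choose t ht using fun j : α => hps (e.symm (q (FreeGroup.of j)))
  let φ : FreeGroup α →* P := FreeGroup.lift t
  have hφ : ∀ w, p (φ w) = e.symm (q w) := by
    intro w
    have : p.comp φ = e.symm.toMonoidHom.comp q := by
      ext j
      simp only [MonoidHom.comp_apply, φ, FreeGroup.lift_apply_of]
      exact ht j
    exact DFunLike.congr_fun this w
  have h1 : ∀ g : P, ∃ w, (φ w)⁻¹ * g ∈ lcs P 1 := by
    intro g
    obtain ⟨w, hw⟩ := QuotientGroup.mk'_surjective (lcs (FreeGroup α) 1) (e (p g))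
    refine ⟨w, QuotientGroup.eq.1 ?_⟩
    change p (φ w) = p g
    rw [hφ]
    change e.symm (QuotientGroup.mk' (lcs (FreeGroup α) 1) w) = p g
    rw [hw, e.symm_apply_apply]
  have h1' : ∀ w, φ w ∈ lcs P 1 → w ∈ lcs (FreeGroup α) 1 := by
    intro w hw
    have h2 : p (φ w) = 1 := (QuotientGroup.eq_one_iff _).2 hw
    rw [hφ] at h2
    have h3 : q w = 1 := by
      have := congrArg e h2
      rwa [e.apply_symm_apply, map_one] at this
    exact (QuotientGroup.eq_one_iff _).1 h3
  refine ⟨φ, fun n g => surj_lcs φ h1 n g, fun n w hw => ?_⟩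
  rcases n with _ | n
  · trivial
  · obtain ⟨e'⟩ := h (n + 1)
    exact inj_lcs φ h1 h1' (n + 1) (by omega) e' w hw

end Pool.Agent.TH714.PF
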