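import Mathlib

set_option autoImplicit false
set_option linter.unusedSectionVars false

/-!
Polynomial functions on a group and derivations into them.
-/

namespace Pool.Agent.TH714.PF

open scoped commutatorElement

section pol

variable {Q : Type*} [Group Q]

/-- right translation -/
def tr (q : Q) : (Q → ℝ) →ₗ[ℝ] (Q → ℝ) where
  toFun f x := f (x * q)
  map_add' _ _ := rfl
  map_smul' _ _ := rfl

theorem tr_apply (q : Q) (f : Q → ℝ) (x : Q) : tr q f x = f (x * q) := rfl

theorem tr_one (f : Q → ℝ) : tr 1 f = f := by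
  funext x
  rw [tr_apply, mul_one]

theorem tr_mul (q q' : Q) (f : Q → ℝ) : tr (q * q') f = tr q (tr q' f) := by
  funext x
  rw [tr_apply, tr_apply, tr_apply, mul_assoc]

variable (Q) in
/-- polynomial functions -/
def Pol : ℕ → Submodule ℝ (Q → ℝ)
  | 0 => ⊥
  | m + 1 =>
    { carrier := {f | ∀ q, tr q f - f ∈ Pol m}
      add_mem' := by
        intro f g hf hg q
        rw [map_add]
        have : tr q f + tr q g - (f + g) = (tr q f - f) + (tr q g - g) := by abel
        rw [this]
        exact (Pol m).add_mem (hf q) (hg q)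
      zero_mem' := by
        intro q
        rw [map_zero, sub_zero]
        exact (Pol m).zero_mem
      smul_mem' := by
        intro c f hf q
        rw [map_smul, ← smul_sub]
        exact (Pol m).smul_mem c (hf q) }

theorem mem_Pol_zero {f : Q → ℝ} : f ∈ Pol Q 0 ↔ f = 0 := by
  rw [Pol, Submodule.mem_bot]

theorem mem_Pol_succ {m : ℕ} {f : Q → ℝ} : f ∈ Pol Q (m + 1) ↔ ∀ q, tr q f - f ∈ Pol Q m := by
  rw [Pol]
  rfl

theorem Pol_le_succ (m : ℕ) : Pol Q m ≤ Pol Q (m + 1) := by
  induction m with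
  | zero =>
    intro f hf
    rw [mem_Pol_zero] at hf
    rw [hf]
    exact Submodule.zero_mem _
  | succ m ih =>
    intro f hf
    rw [mem_Pol_succ] at hf ⊢
    exact fun q => ih (hf q)

theorem Pol_mono {m k : ℕ} (h : m ≤ k) : Pol Q m ≤ Pol Q k :=
  monotone_nat_of_le_succ Pol_le_succ h

theorem sub_mem_Pol {m : ℕ} {f : Q → ℝ} (hf : f ∈ Pol Q m) (q : Q) :
    tr q f - f ∈ Pol Q (m - 1) := by
  rcases m with _ | m
  · rw [mem_Pol_zero] at hf
    rw [hf, map_zero, sub_zero]
    exact Submodule.zero_mem _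
  · exact mem_Pol_succ.1 hf q

theorem tr_mem_Pol {m : ℕ} {f : Q → ℝ} (hf : f ∈ Pol Q m) (q : Q) : tr q f ∈ Pol Q m := by
  have h := (Pol Q m).add_mem (Pol_mono (Nat.sub_le m 1) (sub_mem_Pol hf q)) hf
  rwa [sub_add_cancel] at h

theorem mul_mem_Pol : ∀ (s m k : ℕ), m + k = s → ∀ f f' : Q → ℝ, f ∈ Pol Q m → f' ∈ Pol Q k →
    f * f' ∈ Pol Q (m + k) := by
  intro s
  induction s with
  | zero =>
    intro m k h f f' hf _
    have hm : m = 0 := by omega
    subst hm
    rw [mem_Pol_zero] at hf
    rw [hf, zero_mul]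
    exact Submodule.zero_mem _
  | succ s ih =>
    intro m k h f f' hf hf'
    rcases m with _ | m
    · rw [mem_Pol_zero] at hf
      rw [hf, zero_mul]
      exact Submodule.zero_mem _
    rcases k with _ | k
    · rw [mem_Pol_zero] at hf'
      rw [hf', mul_zero]
      exact Submodule.zero_mem _
    have e : m + 1 + (k + 1) = (m + k + 1) + 1 := by omega
    rw [e, mem_Pol_succ]
    intro q
    have h1 : tr q (f * f') - f * f' = (tr q f - f) * tr q f' + f * (tr q f' - f') := by
      have : tr q (f * f') = tr q f * tr q f' := rfl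
      rw [this]
      ring
    rw [h1]
    refine Submodule.add_mem _ ?_ ?_
    · have := ih m (k + 1) (by omega) _ _ (mem_Pol_succ.1 hf q) (tr_mem_Pol hf' q)
      exact this
    · have := ih (m + 1) k (by omega) _ _ hf (mem_Pol_succ.1 hf' q)
      have e2 : m + 1 + k = m + k + 1 := by omega
      rwa [e2] at this

theorem const_mem_Pol (c : ℝ) : (fun _ => c : Q → ℝ) ∈ Pol Q 1 := by
  rw [mem_Pol_succ]
  intro q
  rw [mem_Pol_zero]
  funext x
  simp [tr_apply]

/-- some degree -/
def IsPol (f : Q → ℝ) : Prop := ∃ m, f ∈ Pol Q m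

theorem IsPol.mul {f f' : Q → ℝ} (hf : IsPol f) (hf' : IsPol f') : IsPol (f * f') := by
  obtain ⟨m, hm⟩ := hf
  obtain ⟨k, hk⟩ := hf'
  exact ⟨m + k, mul_mem_Pol _ m k rfl f f' hm hk⟩

theorem IsPol.sub_const {f : Q → ℝ} (hf : IsPol f) (c : ℝ) : IsPol (fun x => f x - c) := by
  obtain ⟨m, hm⟩ := hf
  refine ⟨m + 1, ?_⟩
  have h1 := Submodule.sub_mem _ (Pol_mono (Nat.le_succ m) hm)
    (Pol_mono (Nat.le_add_left 1 m) (const_mem_Pol (Q := Q) c))
  exact h1

/-- separation of a finite set -/
theorem exists_detect (hsep : ∀ q q' : Q, q ≠ q' → ∃ f : Q → ℝ, IsPol f ∧ f q ≠ f q')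
    (S : Finset Q) (q₀ : Q) (h : q₀ ∉ S) : ∃ f : Q → ℝ, IsPol f ∧ f q₀ ≠ 0 ∧ ∀ q ∈ S, f q = 0 := by
  classical
  induction S using Finset.induction_on with
  | empty =>
    exact ⟨fun _ => 1, ⟨1, const_mem_Pol 1⟩, one_ne_zero, fun q hq => absurd hq (Finset.notMem_empty q)⟩
  | insert a S ha ih =>
    rw [Finset.mem_insert, not_or] at h
    obtain ⟨f, hf, hf0, hfS⟩ := ih h.2
    obtain ⟨g, hg, hne⟩ := hsep q₀ a h.1
    refine ⟨f * fun x => g x - g a, hf.mul (hg.sub_const _), ?_, ?_⟩
    · exact mul_ne_zero hf0 (sub_ne_zero.2 hne)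
    · intro q hq
      rw [Finset.mem_insert] at hq
      rcases hq with rfl | hq
      · change f q * (g q - g q) = 0
        rw [sub_self, mul_zero]
      · change f q * (g q - g a) = 0
        rw [hfS q hq, zero_mul]

end pol

section unip

variable {G M : Type*} [Group G] [AddCommGroup M] [Module ℝ M]

/-- Unipotent actions and the lower central series. -/
theorem unip (ρ : G →* Module.End ℝ M) (W : ℕ → Submodule ℝ M) (hW : Antitone W)
    (h : ∀ g i, ∀ x ∈ W i, ρ g x - x ∈ W (i + 1)) (k : ℕ) :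
    ∀ g ∈ (⊤ : Subgroup G).lowerCentralSeries k, ∀ i, ∀ x ∈ W i, ρ g x - x ∈ W (i + k + 1) := by
  have hst : ∀ g i, ∀ x ∈ W i, ρ g x ∈ W i := by
    intro g i x hx
    have := (W i).add_mem (hW (Nat.le_succ i) (h g i x hx)) hx
    rwa [sub_add_cancel] at this
  induction k with
  | zero => exact fun g _ i x hx => h g i x hx
  | succ k ih =>
    intro g hg
    rw [Subgroup.lowerCentralSeries_succ, Subgroup.commutator_def] at hg
    induction hg using Subgroup.closure_induction with
    | mem g hg =>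
      obtain ⟨a, ha, b, _, rfl⟩ := hg
      intro i x hx
      have h1 : ∀ y, ρ (a * b) y - ρ (b * a) y = (ρ a (ρ b y - y) - (ρ b y - y)) -
          (ρ b (ρ a y - y) - (ρ a y - y)) := by
        intro y
        rw [map_mul, map_mul, Module.End.mul_apply, Module.End.mul_apply, map_sub, map_sub]
        abel
      have h2 : ∀ y ∈ W i, ρ (a * b) y - ρ (b * a) y ∈ W (i + (k + 1) + 1) := by
        intro y hy
        rw [h1]
        refine Submodule.sub_mem _ ?_ ?_
        · have := ih a ha (i + 1) _ (h b i y hy)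
          have e : i + 1 + k + 1 = i + (k + 1) + 1 := by omega
          rwa [e] at this
        · exact h b _ _ (ih a ha i y hy)
      have h3 : ρ ⁅a, b⁆ x - x = ρ (a * b) (ρ (b * a)⁻¹ x) - ρ (b * a) (ρ (b * a)⁻¹ x) := by
        rw [← Module.End.mul_apply, ← Module.End.mul_apply, ← map_mul, ← map_mul, mul_inv_cancel,
          map_one, Module.End.one_apply, commutatorElement_def]
        congr 3
        group
      rw [h3]
      exact h2 _ (hst _ i x hx)
    | one =>
      intro i x _
      rw [map_one, Module.End.one_apply, sub_self]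
      exact Submodule.zero_mem _
    | mul a b _ _ ha hb =>
      intro i x hx
      have h1 : ρ (a * b) x - x = (ρ a (ρ b x) - ρ b x) + (ρ b x - x) := by
        rw [map_mul, Module.End.mul_apply]
        abel
      rw [h1]
      exact Submodule.add_mem _ (ha i _ (hst b i x hx)) (hb i x hx)
    | inv a _ ha =>
      intro i x hx
      have h1 : ρ a⁻¹ x - x = -(ρ a (ρ a⁻¹ x) - ρ a⁻¹ x) := by
        rw [← Module.End.mul_apply, ← map_mul, mul_inv_cancel, map_one, Module.End.one_apply]
        abel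
      rw [h1]
      exact Submodule.neg_mem _ (ha i _ (hst _ i x hx))

end unip

section der

variable {α : Type*} {Q : Type*} [Group Q]

/-- the action of `Q` on functions, as automorphisms -/
def trAut : Q →* MulAut (Multiplicative (Q → ℝ)) where
  toFun q :=
    { toFun := fun f => Multiplicative.ofAdd (tr q f.toAdd)
      invFun := fun f => Multiplicative.ofAdd (tr q⁻¹ f.toAdd)
      left_inv := fun f => by
        apply Multiplicative.toAdd.injective
        simp only [toAdd_ofAdd]
        rw [← tr_mul, inv_mul_cancel, tr_one]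
      right_inv := fun f => by
        apply Multiplicative.toAdd.injective
        simp only [toAdd_ofAdd]
        rw [← tr_mul, mul_inv_cancel, tr_one]
      map_mul' := fun f g => by
        apply Multiplicative.toAdd.injective
        simp only [toAdd_ofAdd, toAdd_mul, map_add] }
  map_one' := MulEquiv.ext fun f => congrArg Multiplicative.ofAdd (tr_one f.toAdd)
  map_mul' q q' := MulEquiv.ext fun f => congrArg Multiplicative.ofAdd (tr_mul q q' f.toAdd)

/-- derivations of free groups -/
theorem exists_der_free [DecidableEq α] (ρ : FreeGroup α →* Q) (a : α) (f : Q → ℝ) :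
    ∃ d : FreeGroup α → Q → ℝ, (∀ v w, d (v * w) = d v + tr (ρ v) (d w)) ∧
      d (FreeGroup.of a) = f ∧ ∀ b, b ≠ a → d (FreeGroup.of b) = 0 := by
  let Φ : FreeGroup α →* (Multiplicative (Q → ℝ)) ⋊[trAut] Q :=
    FreeGroup.lift fun j => ⟨Multiplicative.ofAdd (if j = a then f else 0), ρ (FreeGroup.of j)⟩
  have hr : ∀ w, (Φ w).right = ρ w := by
    intro w
    have : (SemidirectProduct.rightHom.comp Φ) = ρ := by
      ext j
      simp [Φ]
    exact DFunLike.congr_fun this w
  refine ⟨fun w => (Φ w).left.toAdd, fun v w => ?_, ?_, fun b hb => ?_⟩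
  · simp only
    rw [map_mul, SemidirectProduct.mul_left, toAdd_mul, hr v]
    rfl
  · simp [Φ]
  · simp [Φ, hb]

theorem der_one {G : Type*} [Group G] (ρ : G →* Q) (d : G → Q → ℝ)
    (hd : ∀ v w, d (v * w) = d v + tr (ρ v) (d w)) : d 1 = 0 := by
  have h := hd 1 1
  rw [mul_one, map_one, tr_one] at h
  exact left_eq_add.1 h

theorem der_inv {G : Type*} [Group G] (ρ : G →* Q) (d : G → Q → ℝ)
    (hd : ∀ v w, d (v * w) = d v + tr (ρ v) (d w)) (g : G) : d g⁻¹ = - tr (ρ g⁻¹) (d g) := by
  have h := hd g⁻¹ g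
  rw [inv_mul_cancel, der_one ρ d hd] at h
  exact eq_neg_of_add_eq_zero_left h.symm

theorem der_mem_Pol (ρ : FreeGroup α →* Q) (d : FreeGroup α → Q → ℝ)
    (hd : ∀ v w, d (v * w) = d v + tr (ρ v) (d w)) (m : ℕ)
    (hm : ∀ j, d (FreeGroup.of j) ∈ Pol Q m) (w : FreeGroup α) : d w ∈ Pol Q m := by
  refine FreeGroup.induction_on w ?_ hm ?_ ?_
  · rw [der_one ρ d hd]; exact Submodule.zero_mem _
  · intro j _
    rw [der_inv ρ d hd]
    exact Submodule.neg_mem _ (tr_mem_Pol (hm j) _)
  · intro v w hv hw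
    rw [hd]
    exact Submodule.add_mem _ hv (tr_mem_Pol hw _)

/-- derivations into polynomial functions vanish on deep terms of the lower central series -/
theorem der_deep {G : Type*} [Group G] (ρ : G →* Q) (d : G → Q → ℝ)
    (hd : ∀ v w, d (v * w) = d v + tr (ρ v) (d w)) (m : ℕ) (hm : ∀ w, d w ∈ Pol Q m) :
    ∀ w ∈ (⊤ : Subgroup G).lowerCentralSeries m, d w = 0 := by
  let R : G →* Module.End ℝ ((Q → ℝ) × ℝ) :=
    { toFun := fun w =>
        { toFun := fun p => (tr (ρ w) p.1 + p.2 • d w, p.2)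
          map_add' := fun p p' => by
            refine Prod.ext ?_ rfl
            simp only [Prod.fst_add, Prod.snd_add, map_add, add_smul]
            abel
          map_smul' := fun c p => by
            refine Prod.ext ?_ rfl
            simp only [Prod.smul_fst, Prod.smul_snd, map_smul, smul_eq_mul, RingHom.id_apply,
              smul_add, smul_smul] }
      map_one' := by
        refine LinearMap.ext fun p => ?_
        refine Prod.ext ?_ rfl
        change tr (ρ 1) p.1 + p.2 • d 1 = p.1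
        rw [map_one, tr_one, der_one ρ d hd, smul_zero, add_zero]
      map_mul' := fun v w => by
        refine LinearMap.ext fun p => ?_
        refine Prod.ext ?_ rfl
        change tr (ρ (v * w)) p.1 + p.2 • d (v * w) =
          tr (ρ v) (tr (ρ w) p.1 + p.2 • d w) + p.2 • d v
        rw [map_mul, tr_mul, hd, map_add, map_smul, smul_add]
        abel }
  let W : ℕ → Submodule ℝ ((Q → ℝ) × ℝ) := fun i =>
    match i with
    | 0 => (Pol Q m).prod ⊤
    | i + 1 => (Pol Q (m - i)).prod ⊥
  have hW : Antitone W := by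
    refine antitone_nat_of_succ_le fun i => ?_
    rcases i with _ | i
    · exact Submodule.prod_mono le_rfl bot_le
    · exact Submodule.prod_mono (Pol_mono (by omega)) le_rfl
  have hstep : ∀ g i, ∀ x ∈ W i, R g x - x ∈ W (i + 1) := by
    intro g i x hx
    have e : R g x - x = (tr (ρ g) x.1 - x.1 + x.2 • d g, 0) := by
      refine Prod.ext ?_ ?_
      · change tr (ρ g) x.1 + x.2 • d g - x.1 = tr (ρ g) x.1 - x.1 + x.2 • d g
        abel
      · change x.2 - x.2 = 0
        rw [sub_self]
    rw [e]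
    rcases i with _ | i
    · have hx' : x.1 ∈ Pol Q m := (Submodule.mem_prod.1 hx).1
      refine Submodule.mem_prod.2 ⟨?_, Submodule.zero_mem _⟩
      refine Submodule.add_mem _ ?_ (Submodule.smul_mem _ _ (hm g))
      exact Submodule.sub_mem _ (tr_mem_Pol hx' _) hx'
    · have hx' := Submodule.mem_prod.1 hx
      have hx1 : x.1 ∈ Pol Q (m - i) := hx'.1
      have hx2 : x.2 = 0 := (Submodule.mem_bot ℝ).1 hx'.2
      refine Submodule.mem_prod.2 ⟨?_, Submodule.zero_mem _⟩
      rw [hx2, zero_smul, add_zero]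
      have := sub_mem_Pol hx1 (ρ g)
      rwa [Nat.sub_sub] at this
  intro w hw
  have h1 := unip R W hW hstep m w hw 0 (0, 1) (Submodule.mem_prod.2
    ⟨Submodule.zero_mem _, trivial⟩)
  have e : R w (0, 1) - (0, 1) = (d w, 0) := by
    refine Prod.ext ?_ ?_
    · change tr (ρ w) 0 + (1 : ℝ) • d w - 0 = d w
      rw [map_zero, zero_add, one_smul, sub_zero]
    · change (1 : ℝ) - 1 = 0
      rw [sub_self]
  rw [e, zero_add] at h1
  have h2 : d w ∈ Pol Q (m - m) := (Submodule.mem_prod.1 h1).1
  rw [Nat.sub_self, mem_Pol_zero] at h2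
  exact h2

/-- **Derivations of groups with the nilpotent quotients of a free group.** -/
theorem exists_der_para {P : Type*} [Group P] [Group.IsNilpotent Q] (φ : FreeGroup α →* P)
    (hsurj : ∀ (n : ℕ) (g : P), ∃ w, (φ w)⁻¹ * g ∈ (⊤ : Subgroup P).lowerCentralSeries n)
    (hinj : ∀ (n : ℕ) (w : FreeGroup α), φ w ∈ (⊤ : Subgroup P).lowerCentralSeries n →
      w ∈ (⊤ : Subgroup (FreeGroup α)).lowerCentralSeries n)
    (π : P →* Q) (a b : α) (hab : b ≠ a) (f : Q → ℝ) (hf : IsPol f) :
    ∃ d : P → Q → ℝ, (∀ g h x, d (g * h) x = d g x + d h (x * π g)) ∧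
      d (φ (FreeGroup.of a)) = f ∧ (∀ x, d (φ (FreeGroup.of b)) x = 0) := by
  classical
  obtain ⟨m, hm⟩ := hf
  obtain ⟨c, hc⟩ := Subgroup.nilpotent_iff_lowerCentralSeries.1 (inferInstance : Group.IsNilpotent Q)
  obtain ⟨dF, hdF, hda, hdb⟩ := exists_der_free (π.comp φ) a f
  have hdm : ∀ w, dF w ∈ Pol Q m := der_mem_Pol (π.comp φ) dF hdF m fun j => by
    by_cases h : j = a
    · rw [h, hda]; exact hm
    · rw [hdb j h]; exact Submodule.zero_mem _
  have hdeep := der_deep (π.comp φ) dF hdF m hdm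
  set K := max m c with hK
  have hdK : ∀ w ∈ (⊤ : Subgroup (FreeGroup α)).lowerCentralSeries K, dF w = 0 := fun w hw =>
    hdeep w (Subgroup.lowerCentralSeries_antitone _ (le_max_left m c) hw)
  have hπK : ∀ g ∈ (⊤ : Subgroup P).lowerCentralSeries K, π g = 1 := by
    intro g hg
    have h1 : π g ∈ (⊤ : Subgroup Q).lowerCentralSeries K := by
      have h2 : π g ∈ ((⊤ : Subgroup P).lowerCentralSeries K).map π :=
        Subgroup.mem_map_of_mem π hg
      rw [Subgroup.map_lowerCentralSeries] at h2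
      exact Subgroup.lowerCentralSeries_mono _ le_top h2
    have h2 := Subgroup.lowerCentralSeries_antitone _ (le_max_right m c) h1
    rw [hc, Subgroup.mem_bot] at h2
    exact h2
  choose w hw using hsurj K
  have huniq : ∀ (g : P) (v : FreeGroup α),
      (φ v)⁻¹ * g ∈ (⊤ : Subgroup P).lowerCentralSeries K → dF (w g) = dF v := by
    intro g v hv
    have h1 : φ (v⁻¹ * w g) ∈ (⊤ : Subgroup P).lowerCentralSeries K := by
      have h2 := Subgroup.mul_mem _ hv (Subgroup.inv_mem _ (hw g))
      have h3 : (φ v)⁻¹ * g * ((φ (w g))⁻¹ * g)⁻¹ = φ (v⁻¹ * w g) := by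
        rw [map_mul, map_inv]; group
      rwa [h3] at h2
    have h4 := hdK _ (hinj K _ h1)
    have h5 : w g = v * (v⁻¹ * w g) := by group
    rw [h5, hdF, h4, map_zero, add_zero]
  refine ⟨fun g => dF (w g), fun g h x => ?_, ?_, fun x => ?_⟩
  · have h1 : (φ (w g * w h))⁻¹ * (g * h) ∈ (⊤ : Subgroup P).lowerCentralSeries K := by
      have h2 := Subgroup.mul_mem _ (hw h)
        (Subgroup.Normal.conj_mem inferInstance _ (hw g) h⁻¹)
      have h3 : (φ (w h))⁻¹ * h * (h⁻¹ * ((φ (w g))⁻¹ * g) * h⁻¹⁻¹) =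
          (φ (w g * w h))⁻¹ * (g * h) := by
        rw [map_mul]; group
      rwa [h3] at h2
    have h4 : π g = (π.comp φ) (w g) := by
      have h5 := hπK _ (hw g)
      rw [map_mul, map_inv, inv_mul_eq_one] at h5
      exact h5.symm
    simp only
    rw [huniq _ _ h1, hdF, h4]
    rfl
  · simp only
    rw [huniq _ (FreeGroup.of a) (by rw [inv_mul_cancel]; exact Subgroup.one_mem _), hda]
  · simp only
    rw [huniq _ (FreeGroup.of b) (by rw [inv_mul_cancel]; exact Subgroup.one_mem _), hdb b hab]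
    rfl

end der

end Pool.Agent.TH714.PF
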