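import Pool.Agent.TH714.PF.Inv

set_option autoImplicit false
set_option linter.unusedSectionVars false

/-!
Pushing forward Malcev-Neumann series along a monotone homomorphism.
-/

namespace Pool.Agent.TH714.PF

open Pool.Agent.H979R3 Set
open scoped Pointwise

variable {G Q : Type*} [Group G] [LinearOrder G] [MulLeftMono G] [MulRightMono G]
  [Group Q] [LinearOrder Q] [MulLeftMono Q] [MulRightMono Q]

/-- `w` is the push-forward of `z` -/
structure IsPush (π : G →* Q) (z : MN G) (w : MN Q) : Prop where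
  fib : ∀ h, {g | z.c g ≠ 0 ∧ π g = h}.Finite
  pwo : (π '' Function.support z.c).IsPWO
  val : ∀ h, w.c h = ∑ᶠ g, (open Classical in if π g = h then z.c g else 0)

open Classical in
theorem fin_supp_fib {π : G →* Q} {z : MN G} (hf : ∀ h, {g | z.c g ≠ 0 ∧ π g = h}.Finite) (h : Q) :
    (Function.support fun g => if π g = h then z.c g else 0).Finite := by
  refine (hf h).subset fun g hg => ?_
  rw [Function.mem_support] at hg
  by_cases h1 : π g = h
  · rw [if_pos h1] at hg
    exact ⟨hg, h1⟩
  · rw [if_neg h1] at hg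
    exact absurd rfl hg

open Classical in
theorem exists_push (π : G →* Q) (z : MN G) (hf : ∀ h, {g | z.c g ≠ 0 ∧ π g = h}.Finite)
    (hp : (π '' Function.support z.c).IsPWO) : ∃ w, IsPush π z w := by
  refine ⟨⟨fun h => ∑ᶠ g, if π g = h then z.c g else 0, hp.mono ?_⟩, hf, hp, fun h => rfl⟩
  intro h hh
  rw [Function.mem_support] at hh
  obtain ⟨g, hg⟩ := MN.ex_of_finsum hh
  by_cases h1 : π g = h
  · rw [if_pos h1] at hg
    exact ⟨g, hg, h1⟩
  · rw [if_neg h1] at hg
    exact absurd rfl hg

theorem IsPush.unique {π : G →* Q} {z : MN G} {w w' : MN Q} (h : IsPush π z w)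
    (h' : IsPush π z w') : w = w' := by
  ext x
  rw [h.val, h'.val]

open Classical in
theorem IsPush.single (π : G →* Q) (g : G) (r : ℚ) :
    IsPush π (MN.single g r) (MN.single (π g) r) := by
  have hs : Function.support (MN.single g r : MN G).c ⊆ {g} := by
    intro x hx
    by_contra h
    exact hx (MN.single_ne g x r h)
  refine ⟨fun h => (Set.finite_singleton g).subset fun x hx => hs hx.1, ?_, ?_⟩
  · exact ((Set.finite_singleton g).image π).isPWO.mono (Set.image_mono hs)
  · intro h
    rw [finsum_eq_single _ g]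
    · by_cases h1 : π g = h
      · rw [if_pos h1, ← h1, MN.single_same, MN.single_same]
      · rw [if_neg h1, MN.single_ne _ _ _ (Ne.symm h1)]
    · intro x hx
      rw [MN.single_ne _ _ _ hx, ite_self]

theorem IsPush.one (π : G →* Q) : IsPush π (1 : MN G) (1 : MN Q) := by
  have h := IsPush.single π 1 1
  rwa [map_one] at h

open Classical in
theorem IsPush.add {π : G →* Q} {z z' : MN G} {w w' : MN Q} (h : IsPush π z w)
    (h' : IsPush π z' w') : IsPush π (z + z') (w + w') := by
  have hs : Function.support (z + z').c ⊆ Function.support z.c ∪ Function.support z'.c := by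
    intro x hx
    by_contra hc
    rw [Set.mem_union, not_or, Function.notMem_support, Function.notMem_support] at hc
    apply hx
    rw [MN.add_c, hc.1, hc.2, add_zero]
  refine ⟨fun x => ?_, ?_, fun x => ?_⟩
  · refine ((h.fib x).union (h'.fib x)).subset fun g hg => ?_
    rcases hs hg.1 with h1 | h1
    · exact Or.inl ⟨h1, hg.2⟩
    · exact Or.inr ⟨h1, hg.2⟩
  · refine (h.pwo.union h'.pwo).mono ?_
    rw [← Set.image_union]
    exact Set.image_mono hs
  · rw [MN.add_c, h.val, h'.val, ← finsum_add_distrib (fin_supp_fib h.fib x)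
      (fin_supp_fib h'.fib x)]
    refine finsum_congr fun g => ?_
    split_ifs
    · rw [MN.add_c]
    · rw [add_zero]

open Classical in
theorem IsPush.neg {π : G →* Q} {z : MN G} {w : MN Q} (h : IsPush π z w) :
    IsPush π (-z) (-w) := by
  have hs : Function.support (-z).c = Function.support z.c := by
    ext x
    rw [Function.mem_support, Function.mem_support, MN.neg_c, neg_ne_zero]
  refine ⟨fun x => ?_, ?_, fun x => ?_⟩
  · refine (h.fib x).subset fun g hg => ⟨?_, hg.2⟩
    have : g ∈ Function.support (-z).c := hg.1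
    rwa [hs] at this
  · rw [hs]; exact h.pwo
  · rw [MN.neg_c, h.val, ← finsum_neg_distrib]
    refine finsum_congr fun g => ?_
    split_ifs
    · rw [MN.neg_c]
    · rw [neg_zero]

theorem IsPush.sub {π : G →* Q} {z z' : MN G} {w w' : MN Q} (h : IsPush π z w)
    (h' : IsPush π z' w') : IsPush π (z - z') (w - w') := by
  rw [sub_eq_add_neg, sub_eq_add_neg]
  exact h.add h'.neg

theorem IsPush.zero (π : G →* Q) : IsPush π (0 : MN G) (0 : MN Q) := by
  have h := (IsPush.one π).sub (IsPush.one π)
  rwa [sub_self, sub_self] at h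

open Classical in
theorem IsPush.mul {π : G →* Q} {z z' : MN G} {w w' : MN Q} (h : IsPush π z w)
    (h' : IsPush π z' w') : IsPush π (z * z') (w * w') := by
  have hB : ∀ x : Q, {b : Q | b ∈ π '' Function.support z.c ∧
      b⁻¹ * x ∈ π '' Function.support z'.c}.Finite := fun x => fin_pairs h.pwo h'.pwo x
  -- finitely many pairs over a point
  have hpair : ∀ x : Q, {p : G × G | z.c p.1 ≠ 0 ∧ z'.c p.2 ≠ 0 ∧ π p.1 * π p.2 = x}.Finite := by
    intro x
    refine ((hB x).biUnion (t := fun b => {g | z.c g ≠ 0 ∧ π g = b} ×ˢ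
      {g | z'.c g ≠ 0 ∧ π g = b⁻¹ * x}) fun b _ => (h.fib b).prod (h'.fib _)).subset ?_
    rintro ⟨a, c⟩ ⟨ha, hc, hac⟩
    simp only at ha hc hac
    have hc' : π c = (π a)⁻¹ * x := by rw [← hac]; group
    simp only [Set.mem_iUnion]
    refine ⟨π a, ⟨⟨a, ha, rfl⟩, ?_⟩, ⟨ha, rfl⟩, hc, hc'⟩
    rw [← hc']
    exact ⟨c, hc, rfl⟩
  refine ⟨fun x => ?_, ?_, fun x => ?_⟩
  · refine ((hpair x).image fun p => p.1 * p.2).subset ?_
    rintro g ⟨hg, hgx⟩
    obtain ⟨a, ha, c, hc, hac⟩ := MN.supp_mul z z' hg
    simp only at hac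
    refine ⟨(a, c), ⟨ha, hc, ?_⟩, hac⟩
    rw [← map_mul, hac, hgx]
  · refine (pwo_mul h.pwo h'.pwo).mono ?_
    rintro _ ⟨g, hg, rfl⟩
    obtain ⟨a, ha, c, hc, rfl⟩ := MN.supp_mul z z' hg
    exact ⟨π a, ⟨a, ha, rfl⟩, π c, ⟨c, hc, rfl⟩, (map_mul π a c).symm⟩
  · -- the value
    set φ : G × G → ℚ := fun p => if π p.1 * π p.2 = x then z.c p.1 * z'.c p.2 else 0 with hφ
    have hφfin : (Function.support φ).Finite := by
      refine (hpair x).subset fun p hp => ?_
      rw [Function.mem_support, hφ] at hp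
      simp only at hp
      by_cases h1 : π p.1 * π p.2 = x
      · rw [if_pos h1] at hp
        exact ⟨left_ne_zero_of_mul hp, right_ne_zero_of_mul hp, h1⟩
      · rw [if_neg h1] at hp
        exact absurd rfl hp
    have hL : (w * w').c x = ∑ᶠ p, φ p := by
      have e1 : ∀ b : Q, w.c b * w'.c (b⁻¹ * x) =
          ∑ᶠ p : G × G, (if π p.1 = b then φ p else 0) := by
        intro b
        rw [h.val, h'.val]
        have hf2 : (Function.support fun p : G × G => (if π p.1 = b then φ p else 0)).Finite := by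
          refine hφfin.subset fun p hp => ?_
          rw [Function.mem_support] at hp ⊢
          intro h0
          apply hp
          rw [h0, ite_self]
        rw [finsum_curry _ hf2, finsum_mul' _ _ (fin_supp_fib h.fib b)]
        refine finsum_congr fun a => ?_
        rw [mul_finsum' _ _ (fin_supp_fib h'.fib (b⁻¹ * x))]
        refine finsum_congr fun c => ?_
        simp only [hφ]
        by_cases h1 : π a = b
        · rw [if_pos h1, if_pos h1]
          by_cases h2 : π c = b⁻¹ * x
          · rw [if_pos h2, if_pos]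
            rw [h1, h2]; group
          · rw [if_neg h2, if_neg, mul_zero]
            intro h3
            apply h2
            rw [← h3, h1]; group
        · rw [if_neg h1, if_neg h1, zero_mul]
      rw [MN.mul_c]
      simp_rw [e1]
      have hf3 : (Function.support fun q : Q × (G × G) => (if π q.2.1 = q.1 then φ q.2 else 0)).Finite := by
        refine (hφfin.image fun p => (π p.1, p)).subset ?_
        rintro ⟨b, p⟩ hq
        rw [Function.mem_support] at hq
        simp only at hq
        by_cases h1 : π p.1 = b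
        · rw [if_pos h1] at hq
          exact ⟨p, hq, Prod.ext h1 rfl⟩
        · rw [if_neg h1] at hq
          exact absurd rfl hq
      rw [← finsum_curry (fun q : Q × (G × G) => (if π q.2.1 = q.1 then φ q.2 else 0)) hf3]
      have hf4 : (Function.support fun q : (G × G) × Q => (if π q.1.1 = q.2 then φ q.1 else 0)).Finite := by
        refine (hf3.image Prod.swap).subset ?_
        rintro ⟨p, b⟩ hq
        exact ⟨(b, p), hq, rfl⟩
      refine (finsum_comp_equiv (Equiv.prodComm (G × G) Q)).symm.trans ?_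
      change ∑ᶠ q : (G × G) × Q, (if π q.1.1 = q.2 then φ q.1 else 0) = _
      rw [finsum_curry (fun q : (G × G) × Q => (if π q.1.1 = q.2 then φ q.1 else 0)) hf4]
      refine finsum_congr fun p => ?_
      rw [finsum_eq_single _ (π p.1)]
      · rw [if_pos rfl]
      · intro b hb
        rw [if_neg (Ne.symm hb)]
    have hR : (∑ᶠ g, if π g = x then (z * z').c g else 0) = ∑ᶠ p, φ p := by
      set ψ : G × G → ℚ := fun q => if π q.1 = x then z.c q.2 * z'.c (q.2⁻¹ * q.1) else 0 with hψ
      have e1 : ∀ g, (if π g = x then (z * z').c g else 0) = ∑ᶠ a, ψ (g, a) := by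
        intro g
        simp only [hψ]
        by_cases h1 : π g = x
        · simp only [if_pos h1]
          rw [MN.mul_c]
        · simp only [if_neg h1]
          rw [finsum_zero]
      have e2 : ∀ p : G × G, φ p = ψ (p.1 * p.2, p.1) := by
        intro p
        simp only [hφ, hψ]
        rw [map_mul, inv_mul_cancel_left]
      let e : G × G ≃ G × G :=
        { toFun := fun p => (p.1 * p.2, p.1)
          invFun := fun q => (q.2, q.2⁻¹ * q.1)
          left_inv := fun p => by simp
          right_inv := fun q => by simp }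
      have hψfin : (Function.support ψ).Finite := by
        refine (hφfin.image e).subset ?_
        intro q hq
        refine ⟨e.symm q, ?_, e.apply_symm_apply q⟩
        rw [Function.mem_support, e2]
        have : (((e.symm q).1 * (e.symm q).2, (e.symm q).1) : G × G) = q := e.apply_symm_apply q
        rw [this]
        exact hq
      simp_rw [e1]
      rw [← finsum_curry ψ hψfin, ← finsum_comp_equiv e]
      exact finsum_congr fun p => (e2 p).symm
    rw [hL, hR]

/-! ### inverses -/

theorem fib_closure {π : G →* Q} {S : Set G}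
    (hf : ∀ h, {g | g ∈ S ∧ π g = h}.Finite) (hp : (π '' S).IsPWO) (h1 : ∀ g ∈ S, 1 < π g) :
    (π '' (Submonoid.closure S : Set G)).IsPWO ∧
    ∀ h, {g | g ∈ Submonoid.closure S ∧ π g = h}.Finite := by
  have himg : π '' (Submonoid.closure S : Set G) = (Submonoid.closure (π '' S) : Set Q) := by
    rw [← MonoidHom.map_mclosure]
    rfl
  have hM : (Submonoid.closure (π '' S) : Set Q).IsPWO :=
    pwo_closure hp (by rintro _ ⟨g, hg, rfl⟩; exact (h1 g hg).le)
  refine ⟨by rw [himg]; exact hM, fun h => ?_⟩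
  by_cases hh : h ∈ (Submonoid.closure (π '' S) : Set Q)
  swap
  · refine Set.finite_empty.subset ?_
    rintro g ⟨hg, rfl⟩
    apply hh
    rw [← himg]
    exact ⟨g, hg, rfl⟩
  · refine Set.WellFoundedOn.induction
      (P := fun h => {g | g ∈ Submonoid.closure S ∧ π g = h}.Finite) hM.isWF hh ?_
    intro x hx ih
    have hfin := fin_pairs hp hM x
    have key : {g | g ∈ Submonoid.closure S ∧ π g = x} ⊆ {1} ∪
        ⋃ b ∈ {b : Q | b ∈ π '' S ∧ b⁻¹ * x ∈ (Submonoid.closure (π '' S) : Set Q)},
          ({g | g ∈ S ∧ π g = b} * {g | g ∈ Submonoid.closure S ∧ π g = b⁻¹ * x}) := by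
      rintro g ⟨hg, hgx⟩
      have : g = 1 ∨ ∃ s ∈ S, ∃ g' ∈ Submonoid.closure S, g = s * g' := by
        induction hg using Submonoid.closure_induction_left with
        | one => left; rfl
        | mul_left s hs g' hg' _ => right; exact ⟨s, hs, g', hg', rfl⟩
      rcases this with h | ⟨s, hs, g', hg', rfl⟩
      · left; exact h
      · right
        have hx' : π g' = (π s)⁻¹ * x := by rw [← hgx, map_mul]; group
        simp only [Set.mem_iUnion]
        refine ⟨π s, ⟨⟨s, hs, rfl⟩, ?_⟩, s, ⟨hs, rfl⟩, g', ⟨hg', hx'⟩, rfl⟩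
        rw [← hx', ← himg]
        exact ⟨g', hg', rfl⟩
    refine Set.Finite.subset ?_ key
    refine (Set.finite_singleton 1).union (hfin.biUnion ?_)
    rintro b ⟨⟨s, hs, rfl⟩, hb⟩
    refine (hf _).mul (ih _ hb ?_)
    have h2 : 1 < π s := h1 s hs
    calc (π s)⁻¹ * x < 1 * x := by
          apply mul_lt_mul_left
          exact Left.inv_lt_one_iff.mpr h2
      _ = x := one_mul x

theorem IsPush.inv_one_sub {π : G →* Q} {y : MN G} {v : MN Q}
    (h : IsPush π y v) (hy : ∀ x, y.c x ≠ 0 → 1 < x) (h1 : ∀ g, y.c g ≠ 0 → 1 < π g) :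
    IsPush π (1 - y)⁻¹ (1 - v)⁻¹ := by
  obtain ⟨z, hz, hs⟩ := ex_inv_one_sub_supp y hy
  obtain ⟨hp, hf⟩ := fib_closure (S := Function.support y.c) h.fib h.pwo h1
  obtain ⟨w, hw⟩ := exists_push π z
    (fun x => (hf x).subset fun g hg => ⟨hs g hg.1, hg.2⟩)
    (hp.mono (Set.image_mono fun g hg => hs g hg))
  have h2 := ((IsPush.one π).sub h).mul hw
  rw [hz] at h2
  have h3 := h2.unique (IsPush.one π)
  rw [inv_eq_of_mul_eq_one_right hz, inv_eq_of_mul_eq_one_right h3]
  exact hw

theorem IsPush.inv {π : G →* Q} {z : MN G} {w : MN Q}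
    (h : IsPush π z w) (hz : z ≠ 0)
    (h1 : ∀ g x, z.c g ≠ 0 → (∀ x, x < g → z.c x = 0) → z.c (g * x) ≠ 0 → 1 < x → 1 < π x) :
    ∃ w', IsPush π z⁻¹ w' := by
  obtain ⟨g, hg, y, hy, hy1, hy2, hzy, hinv⟩ := shape z hz
  have hpy : IsPush π y (1 - MN.single (π g⁻¹) (z.c g)⁻¹ * w) := by
    rw [hy]
    exact (IsPush.one π).sub ((IsPush.single π _ _).mul h)
  have hmin : ∀ x, x < g → z.c x = 0 := by
    intro x hx
    by_contra hne
    -- `y` is supported on elements `> 1`
    have h2 : z.c x = z.c g * (1 - y).c (g⁻¹ * x) := by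
      conv_lhs => rw [hzy]
      rw [MN.single_mul_c]
    have h3 : g⁻¹ * x < 1 := by
      rw [inv_mul_lt_iff_lt_mul, mul_one]
      exact hx
    have h4 : y.c (g⁻¹ * x) = 0 := by
      by_contra h5
      exact absurd (hy1 _ h5) (not_lt.2 h3.le)
    rw [MN.sub_c, h4, sub_zero, MN.one_def, MN.single_ne _ _ _ h3.ne, mul_zero] at h2
    exact hne h2
  have h5 := hpy.inv_one_sub hy1 (fun x hx => h1 g x hg hmin (hy2 x hx) (hy1 x hx))
  rw [hinv]
  exact ⟨_, h5.mul (IsPush.single π _ _)⟩

end Pool.Agent.TH714.PF
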