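import Pool.Agent.TH714.PF.Mag
import Pool.Agent.TH714.PF.Pol
import Pool.Agent.TH714.PF.Para

set_option autoImplicit false
set_option linter.unusedSectionVars false

/-!
Groups of power series with constant coefficient `1`: orders, truncations, polynomial coordinates.
-/

namespace Pool.Agent.TH714.PF

open Pool.Agent.H32CE PowerSeries
open scoped commutatorElement

/-! ### orders from coordinates -/

section ord

variable {A G : Type} [AddCommGroup A] [LinearOrder A] [Group G] (c : G → ℕ → A)

/-- the lexicographic order -/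
@[reducible] noncomputable def ordG (hc : Function.Injective c) : LinearOrder G :=
  LinearOrder.lift' (fun g => (toLex (c g) : Lex (ℕ → A))) (fun _ _ h => hc (toLex.injective h))

theorem ordG_lt (hc : Function.Injective c) (g g' : G) :
    (ordG c hc).lt g g' ↔ ∃ n, (∀ i < n, c g i = c g' i) ∧ c g n < c g' n := Iff.rfl

theorem ordG_le (hc : Function.Injective c) (g g' : G) :
    (ordG c hc).le g g' ↔ g = g' ∨ (ordG c hc).lt g g' := by
  let _ := ordG c hc
  exact le_iff_eq_or_lt

variable (hA : ∀ a b : A, a < b ↔ 0 < b - a)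
  (hL : ∀ h g g' n, (∀ i < n, c g i = c g' i) → c (h * g') n - c (h * g) n = c g' n - c g n)
  (hR : ∀ h g g' n, (∀ i < n, c g i = c g' i) → c (g' * h) n - c (g * h) n = c g' n - c g n)

include hA hL in
theorem ordG_left (hc : Function.Injective c) :
    @MulLeftMono G _ (ordG c hc).toLE := by
  let _ := ordG c hc
  constructor
  intro h g g' hgg
  change (ordG c hc).le _ _
  have hgg' : (ordG c hc).le g g' := hgg
  rw [ordG_le] at hgg' ⊢
  rcases hgg' with rfl | hlt
  · left; rfl
  · right
    rw [ordG_lt] at hlt ⊢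
    obtain ⟨n, hn, hlt⟩ := hlt
    refine ⟨n, fun i hi => ?_, ?_⟩
    · have h1 := hL h g g' i (fun j hj => hn j (hj.trans hi))
      rw [hn i hi, sub_self, sub_eq_zero] at h1
      exact h1.symm
    · rw [hA] at hlt ⊢
      have h1 := hL h g g' n hn
      change 0 < c (h * g') n - c (h * g) n
      rw [h1]
      exact hlt

include hA hR in
theorem ordG_right (hc : Function.Injective c) :
    @MulRightMono G _ (ordG c hc).toLE := by
  let _ := ordG c hc
  constructor
  intro h g g' hgg
  change (ordG c hc).le _ _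
  have hgg' : (ordG c hc).le g g' := hgg
  rw [ordG_le] at hgg' ⊢
  rcases hgg' with rfl | hlt
  · left; rfl
  · right
    rw [ordG_lt] at hlt ⊢
    obtain ⟨n, hn, hlt⟩ := hlt
    refine ⟨n, fun i hi => ?_, ?_⟩
    · have h1 := hR h g g' i (fun j hj => hn j (hj.trans hi))
      rw [hn i hi, sub_self, sub_eq_zero] at h1
      exact h1.symm
    · rw [hA] at hlt ⊢
      have h1 := hR h g g' n hn
      change 0 < c (g' * h) n - c (g * h) n
      rw [h1]
      exact hlt

end ord

/-- a translation invariant linear order on the free algebra -/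
theorem exists_ordT (α : Type) : ∃ o : LinearOrder (T α), ∀ a b : T α, o.lt a b ↔ o.lt 0 (b - a) := by
  classical
  let _ : LinearOrder (FreeMonoid α) := IsWellOrder.linearOrder WellOrderingRel
  let F : T α → Lex (FreeMonoid α →₀ ℝ) := fun f => toLex f.coeff
  have hF : Function.Injective F := fun f g h => MonoidAlgebra.coeff_injective (toLex.injective h)
  refine ⟨LinearOrder.lift' F hF, fun a b => ?_⟩
  change F a < F b ↔ F 0 < F (b - a)
  have h1 : F (b - a) = F b - F a := by
    change toLex (b - a).coeff = toLex b.coeff - toLex a.coeff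
    rw [MonoidAlgebra.coeff_sub]
    rfl
  have h2 : F 0 = 0 := rfl
  rw [h1, h2, sub_pos]

/-! ### truncations -/

section trunc

variable {A : Type} [Ring A] {P : Type} [Group P] (ψ : P →* PS A)

/-- the elements congruent to `1` -/
def CC (n : ℕ) : Subgroup P where
  carrier := {g | ordge n (ψ g - 1)}
  mul_mem' := by
    intro g h hg hh
    have e : ψ (g * h) - 1 = ψ g * (ψ h - 1) + (ψ g - 1) := by
      rw [map_mul]; noncomm_ring
    rw [Set.mem_ofPred_eq, e]
    exact TBAS.og_add (TBAS.og_mul_left _ hh) hg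
  one_mem' := by
    intro i _
    rw [map_one, sub_self, map_zero]
  inv_mem' := by
    intro g hg
    have e : ψ g⁻¹ - 1 = -(ψ g⁻¹ * (ψ g - 1)) := by
      rw [mul_sub, ← map_mul, inv_mul_cancel, map_one, mul_one]; abel
    rw [Set.mem_ofPred_eq, e]
    exact TBAS.og_neg (TBAS.og_mul_left _ hg)

theorem mem_CC {n : ℕ} {g : P} : g ∈ CC ψ n ↔ ordge n (ψ g - 1) := Iff.rfl

instance CC_normal (n : ℕ) : (CC ψ n).Normal where
  conj_mem := by
    intro g hg h
    rw [mem_CC] at hg ⊢
    have e : ψ (h * g * h⁻¹) - 1 = ψ h * (ψ g - 1) * ψ h⁻¹ := by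
      rw [mul_sub, sub_mul, mul_one, ← map_mul, ← map_mul, ← map_mul, mul_inv_cancel, map_one]
    rw [e]
    exact TBAS.og_mul_right _ (TBAS.og_mul_left _ hg)

theorem CC_iff {n : ℕ} {g g' : P} : g⁻¹ * g' ∈ CC ψ n ↔ ordge n (ψ g' - ψ g) := by
  rw [mem_CC]
  constructor
  · intro h
    have e : ψ g' - ψ g = ψ g * (ψ (g⁻¹ * g') - 1) := by
      rw [mul_sub, ← map_mul, mul_inv_cancel_left, mul_one]
    rw [e]
    exact TBAS.og_mul_left _ h
  · intro h
    have e : ψ (g⁻¹ * g') - 1 = ψ g⁻¹ * (ψ g' - ψ g) := by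
      rw [mul_sub, ← map_mul, ← map_mul, inv_mul_cancel, map_one]
    rw [e]
    exact TBAS.og_mul_left _ h

/-- coordinates of the truncation -/
noncomputable def cq (n : ℕ) : P ⧸ CC ψ n → ℕ → A :=
  fun x => Quotient.liftOn' x (fun g k => if k < n then coeff k (ψ g) else 0) (by
    intro g g' h
    rw [QuotientGroup.leftRel_apply, CC_iff] at h
    funext k
    by_cases hk : k < n
    · simp only [if_pos hk]
      have := h k hk
      rw [map_sub, sub_eq_zero] at this
      exact this.symm
    · simp only [if_neg hk])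

theorem cq_mk (n : ℕ) (g : P) (k : ℕ) :
    cq ψ n (QuotientGroup.mk g) k = if k < n then coeff k (ψ g) else 0 := rfl

theorem cq_injective (n : ℕ) : Function.Injective (cq ψ n) := by
  intro x y h
  induction x using QuotientGroup.induction_on with
  | H g =>
    induction y using QuotientGroup.induction_on with
    | H g' =>
      rw [QuotientGroup.eq, CC_iff]
      intro k hk
      have := congrFun h k
      rw [cq_mk, cq_mk, if_pos hk, if_pos hk] at this
      rw [map_sub, this, sub_self]

variable (h0 : ∀ g, coeff 0 (ψ g) = 1)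

include h0 in
theorem psi_left (h g g' : P) (n : ℕ) (hn : ∀ i < n, coeff i (ψ g) = coeff i (ψ g')) :
    coeff n (ψ (h * g')) - coeff n (ψ (h * g)) = coeff n (ψ g') - coeff n (ψ g) := by
  have h1 : ordge n (ψ g' - ψ g) := fun i hi => by rw [map_sub, hn i hi, sub_self]
  have h2 := TBAS.top_left (ψ h) h1
  rw [h0, one_mul, map_sub, mul_sub, map_sub, ← map_mul, ← map_mul] at h2
  exact h2

include h0 in
theorem psi_right (h g g' : P) (n : ℕ) (hn : ∀ i < n, coeff i (ψ g) = coeff i (ψ g')) :
    coeff n (ψ (g' * h)) - coeff n (ψ (g * h)) = coeff n (ψ g') - coeff n (ψ g) := by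
  have h1 : ordge n (ψ g' - ψ g) := fun i hi => by rw [map_sub, hn i hi, sub_self]
  have h2 := TBAS.top_right (ψ h) h1
  rw [h0, mul_one, map_sub, sub_mul, map_sub, ← map_mul, ← map_mul] at h2
  exact h2

include h0 in
theorem cq_left (N : ℕ) (h g g' : P ⧸ CC ψ N) (n : ℕ)
    (hn : ∀ i < n, cq ψ N g i = cq ψ N g' i) :
    cq ψ N (h * g') n - cq ψ N (h * g) n = cq ψ N g' n - cq ψ N g n := by
  induction g using QuotientGroup.induction_on with
  | H g =>
    induction g' using QuotientGroup.induction_on with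
    | H g' =>
      induction h using QuotientGroup.induction_on with
      | H h =>
        rw [← QuotientGroup.mk_mul, ← QuotientGroup.mk_mul, cq_mk, cq_mk, cq_mk, cq_mk]
        by_cases hN : n < N
        · simp only [if_pos hN]
          refine psi_left ψ h0 h g g' n fun i hi => ?_
          have := hn i hi
          rwa [cq_mk, cq_mk, if_pos (hi.trans hN), if_pos (hi.trans hN)] at this
        · simp only [if_neg hN]

include h0 in
theorem cq_right (N : ℕ) (h g g' : P ⧸ CC ψ N) (n : ℕ)
    (hn : ∀ i < n, cq ψ N g i = cq ψ N g' i) :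
    cq ψ N (g' * h) n - cq ψ N (g * h) n = cq ψ N g' n - cq ψ N g n := by
  induction g using QuotientGroup.induction_on with
  | H g =>
    induction g' using QuotientGroup.induction_on with
    | H g' =>
      induction h using QuotientGroup.induction_on with
      | H h =>
        rw [← QuotientGroup.mk_mul, ← QuotientGroup.mk_mul, cq_mk, cq_mk, cq_mk, cq_mk]
        by_cases hN : n < N
        · simp only [if_pos hN]
          refine psi_right ψ h0 h g g' n fun i hi => ?_
          have := hn i hi
          rwa [cq_mk, cq_mk, if_pos (hi.trans hN), if_pos (hi.trans hN)] at this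
        · simp only [if_neg hN]

include h0 in
theorem CC_one : CC ψ 1 = ⊤ := by
  rw [eq_top_iff]
  intro g _ i hi
  have : i = 0 := by omega
  subst this
  rw [map_sub, h0, PowerSeries.coeff_one, if_pos rfl, sub_self]

include h0 in
theorem lcs_le_CC (n : ℕ) : (⊤ : Subgroup P).lowerCentralSeries n ≤ CC ψ (n + 1) := by
  induction n with
  | zero => rw [CC_one ψ h0]; exact le_top
  | succ n ih =>
    rw [Subgroup.lowerCentralSeries_succ]
    refine (Subgroup.commutator_le).2 fun g hg h _ => ?_
    have hg1 : ordge (n + 1) (ψ g - 1) := ih hg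
    have hh1 : ordge 1 (ψ h - 1) := by
      have : h ∈ CC ψ 1 := by rw [CC_one ψ h0]; trivial
      exact this
    rw [mem_CC]
    have e : ψ ⁅g, h⁆ - 1 = ((ψ g - 1) * (ψ h - 1) - (ψ h - 1) * (ψ g - 1)) * ψ (h * g)⁻¹ := by
      have e1 : (ψ g - 1) * (ψ h - 1) - (ψ h - 1) * (ψ g - 1) = ψ (g * h) - ψ (h * g) := by
        rw [map_mul, map_mul]; noncomm_ring
      rw [e1, sub_mul, ← map_mul, ← map_mul, mul_inv_cancel, map_one, commutatorElement_def]
      congr 2
      group
    rw [e]
    refine TBAS.og_mul_right _ (TBAS.og_sub (TBAS.og_mul hg1 hh1) ?_)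
    have := TBAS.og_mul hh1 hg1
    rwa [Nat.add_comm 1 (n + 1)] at this

include h0 in
theorem quot_CC_nilp (n : ℕ) : Group.IsNilpotent (P ⧸ CC ψ n) := by
  refine Subgroup.nilpotent_iff_lowerCentralSeries.2 ⟨n, ?_⟩
  rw [eq_bot_iff]
  intro x hx
  have h1 : ((⊤ : Subgroup P).lowerCentralSeries n).map (QuotientGroup.mk' (CC ψ n)) =
      (⊤ : Subgroup (P ⧸ CC ψ n)).lowerCentralSeries n := by
    rw [Subgroup.map_lowerCentralSeries,
      Subgroup.map_top_of_surjective _ (QuotientGroup.mk'_surjective _)]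
  rw [← h1] at hx
  obtain ⟨g, hg, rfl⟩ := hx
  rw [Subgroup.mem_bot]
  refine (QuotientGroup.eq_one_iff g).2 ?_
  exact TBAS.og_mono (Nat.le_succ n) (lcs_le_CC ψ h0 n hg)

end trunc

/-! ### polynomial coordinates -/

section polc

variable {A : Type} [Ring A] [Algebra ℝ A] {P : Type} [Group P] (ψ : P →* PS A)
  (h0 : ∀ g, coeff 0 (ψ g) = 1)

include h0 in
theorem coord_mem_Pol (n : ℕ) (k : ℕ) (hk : k < n) : ∀ l : A →ₗ[ℝ] ℝ,
    (fun x : P ⧸ CC ψ n => l (cq ψ n x k)) ∈ Pol (P ⧸ CC ψ n) (k + 1) := by
  induction k using Nat.strong_induction_on with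
  | _ k ih =>
    intro l
    rw [mem_Pol_succ]
    intro q
    have key : tr q (fun x : P ⧸ CC ψ n => l (cq ψ n x k)) - (fun x => l (cq ψ n x k)) =
        ∑ i ∈ Finset.range k, fun x : P ⧸ CC ψ n =>
          (l.comp (LinearMap.mulRight ℝ (cq ψ n q (k - i)))) (cq ψ n x i) := by
      funext x
      rw [Pi.sub_apply, tr_apply, Finset.sum_apply]
      induction x using QuotientGroup.induction_on with
      | H g =>
        induction q using QuotientGroup.induction_on with
        | H h =>
          rw [← QuotientGroup.mk_mul, cq_mk, cq_mk, if_pos hk, if_pos hk, map_mul,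
            PowerSeries.coeff_mul, Finset.Nat.sum_antidiagonal_eq_sum_range_succ_mk,
            Finset.sum_range_succ, Nat.sub_self, h0, mul_one, map_add, map_sum, add_sub_cancel_right]
          refine Finset.sum_congr rfl fun i hi => ?_
          rw [Finset.mem_range] at hi
          rw [cq_mk, cq_mk, if_pos (hi.trans hk), if_pos (by omega)]
          rfl
    rw [key]
    refine Submodule.sum_mem _ fun i hi => ?_
    rw [Finset.mem_range] at hi
    exact Pol_mono (by omega) (ih i hi (hi.trans hk) _)

include h0 in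
theorem sep_Pol (hdual : ∀ a : A, a ≠ 0 → ∃ l : A →ₗ[ℝ] ℝ, l a ≠ 0) (n : ℕ)
    (q q' : P ⧸ CC ψ n) (hne : q ≠ q') :
    ∃ f : (P ⧸ CC ψ n) → ℝ, IsPol f ∧ f q ≠ f q' := by
  have h1 : ∃ k, cq ψ n q k ≠ cq ψ n q' k := by
    by_contra hcon
    push Not at hcon
    exact hne (cq_injective ψ n (funext hcon))
  obtain ⟨k, hk⟩ := h1
  have hkn : k < n := by
    by_contra hlt
    apply hk
    induction q using QuotientGroup.induction_on with
    | H g =>
      induction q' using QuotientGroup.induction_on with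
      | H g' => rw [cq_mk, cq_mk, if_neg hlt, if_neg hlt]
  obtain ⟨l, hl⟩ := hdual _ (sub_ne_zero.2 hk)
  refine ⟨fun x => l (cq ψ n x k), ⟨k + 1, coord_mem_Pol ψ h0 n k hkn l⟩, ?_⟩
  intro h
  apply hl
  rw [map_sub]
  exact sub_eq_zero.2 h

end polc

theorem dualT {α : Type} (a : T α) (ha : a ≠ 0) : ∃ l : T α →ₗ[ℝ] ℝ, l a ≠ 0 := by
  have h1 : ∃ m, a.coeff m ≠ 0 := by
    by_contra hcon
    push Not at hcon
    apply ha
    apply MonoidAlgebra.coeff_injective
    ext m
    rw [hcon m]
    rfl
  obtain ⟨m, hm⟩ := h1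
  exact ⟨{ toFun := fun f => f.coeff m
           map_add' := fun f g => by rw [MonoidAlgebra.coeff_add, Finsupp.add_apply]
           map_smul' := fun c f => by rw [MonoidAlgebra.coeff_smul_apply]; rfl }, hm⟩

end Pool.Agent.TH714.PF
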